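import Mathlib

/-!
Truncated multiple zeta values, the quasi-shuffle (stuffle) product, and convergence.
-/

set_option autoImplicit false

namespace Helper58.MZV

open Filter Topology

/-- the summation operator `(T_a f)(N) = ∑_{n < N} (n+1)^{-a} f(n)` -/
noncomputable def T (a : ℕ) : (ℕ → ℝ) →ₗ[ℚ] (ℕ → ℝ) where
  toFun f := fun N => ∑ n ∈ Finset.range N, (((n + 1 : ℕ) : ℝ) ^ a)⁻¹ * f n
  map_add' f g := by
    ext N
    simp only [Pi.add_apply, mul_add, Finset.sum_add_distrib]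
  map_smul' c f := by
    ext N
    simp only [Pi.smul_apply, RingHom.id_apply, Finset.smul_sum]
    apply Finset.sum_congr rfl
    intro n _
    rw [mul_smul_comm]

/-- truncated multiple zeta values: `zt s N = ∑_{N ≥ n_1 > ... > n_k ≥ 1} ∏ n_i^{-s_i}` -/
noncomputable def zt : List ℕ → (ℕ → ℝ)
  | [] => fun _ => 1
  | a :: w => T a (zt w)

@[simp] lemma zt_nil : zt [] = fun _ => 1 := rfl
@[simp] lemma zt_cons (a : ℕ) (w : List ℕ) : zt (a :: w) = T a (zt w) := rfl

lemma T_apply (a : ℕ) (f : ℕ → ℝ) (N : ℕ) :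
    T a f N = ∑ n ∈ Finset.range N, (((n + 1 : ℕ) : ℝ) ^ a)⁻¹ * f n := rfl

lemma T_zero (a : ℕ) (f : ℕ → ℝ) : T a f 0 = 0 := by simp [T_apply]

lemma T_succ (a : ℕ) (f : ℕ → ℝ) (N : ℕ) :
    T a f (N + 1) = T a f N + (((N + 1 : ℕ) : ℝ) ^ a)⁻¹ * f N := by
  rw [T_apply, Finset.sum_range_succ, ← T_apply]

/-- the basic product formula (quasi-shuffle) -/
lemma T_mul_T (a b : ℕ) (f g : ℕ → ℝ) :
    T a f * T b g = T a (f * T b g) + T b (T a f * g) + T (a + b) (f * g) := by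
  ext N
  induction N with
  | zero => simp [T_zero]
  | succ N ih =>
    simp only [Pi.mul_apply, Pi.add_apply, T_succ] at ih ⊢
    have e : (((N + 1 : ℕ) : ℝ) ^ (a + b))⁻¹ = (((N + 1 : ℕ) : ℝ) ^ a)⁻¹ * (((N + 1 : ℕ) : ℝ) ^ b)⁻¹ := by
      rw [pow_add, mul_inv]
    rw [e]
    linear_combination ih

/-- indices with positive entries -/
def Pos (s : List ℕ) : Prop := ∀ a ∈ s, 1 ≤ a

/-- admissible indices -/
def Adm (s : List ℕ) : Prop := Pos s ∧ ∀ a ∈ s.head?, 2 ≤ a

/-- span of all truncated sums of weight `n` -/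
noncomputable def W (n : ℕ) : Submodule ℚ (ℕ → ℝ) := Submodule.span ℚ {f | ∃ s, Pos s ∧ s.sum = n ∧ f = zt s}

/-- span of the admissible truncated sums of weight `n` -/
noncomputable def A (n : ℕ) : Submodule ℚ (ℕ → ℝ) := Submodule.span ℚ {f | ∃ s, Adm s ∧ s.sum = n ∧ f = zt s}

lemma zt_mem_W {s : List ℕ} (hs : Pos s) : zt s ∈ W s.sum := Submodule.subset_span ⟨s, hs, rfl, rfl⟩

lemma zt_mem_A {s : List ℕ} (hs : Adm s) : zt s ∈ A s.sum := Submodule.subset_span ⟨s, hs, rfl, rfl⟩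

lemma A_le_W (n : ℕ) : A n ≤ W n := by
  apply Submodule.span_mono
  rintro f ⟨s, hs, h1, h2⟩
  exact ⟨s, hs.1, h1, h2⟩

lemma T_mem_W {a n : ℕ} (ha : 1 ≤ a) {f : ℕ → ℝ} (hf : f ∈ W n) : T a f ∈ W (a + n) := by
  have h : W n ≤ (W (a + n)).comap (T a) := by
    rw [W, Submodule.span_le]
    rintro f ⟨s, hs, h1, rfl⟩
    apply Submodule.subset_span
    refine ⟨a :: s, ?_, by simp [h1], rfl⟩
    intro b hb
    rcases List.mem_cons.mp hb with rfl | h
    · exact ha
    · exact hs b h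
  exact h hf

lemma T_mem_A {a n : ℕ} (ha : 2 ≤ a) {f : ℕ → ℝ} (hf : f ∈ W n) : T a f ∈ A (a + n) := by
  have h : W n ≤ (A (a + n)).comap (T a) := by
    rw [W, Submodule.span_le]
    rintro f ⟨s, hs, h1, rfl⟩
    apply Submodule.subset_span
    refine ⟨a :: s, ⟨?_, ?_⟩, by simp [h1], rfl⟩
    · intro b hb
      rcases List.mem_cons.mp hb with rfl | h
      · omega
      · exact hs b h
    · simp [ha]
  exact h hf

lemma zt_mul_mem_W : ∀ (s t : List ℕ), Pos s → Pos t → zt s * zt t ∈ W (s.sum + t.sum)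
  | [], t, _, ht => by
    have : zt [] * zt t = zt t := by ext N; simp
    rw [this]
    simpa using zt_mem_W ht
  | a :: s, [], hs, _ => by
    have : zt (a :: s) * zt [] = zt (a :: s) := by ext N; simp
    rw [this]
    simpa using zt_mem_W hs
  | a :: s, b :: t, hs, ht => by
    have ha : 1 ≤ a := hs a (by simp)
    have hb : 1 ≤ b := ht b (by simp)
    have hs' : Pos s := fun c hc => hs c (by simp [hc])
    have ht' : Pos t := fun c hc => ht c (by simp [hc])
    have h1 := zt_mul_mem_W s (b :: t) hs' ht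
    have h2 := zt_mul_mem_W (a :: s) t hs ht'
    have h3 := zt_mul_mem_W s t hs' ht'
    have k1 := T_mem_W ha h1
    have k2 := T_mem_W hb h2
    have k3 := T_mem_W (by omega : 1 ≤ a + b) h3
    rw [zt_cons, zt_cons, T_mul_T, ← zt_cons, ← zt_cons]
    have e1 : a + (s.sum + (b :: t).sum) = (a :: s).sum + (b :: t).sum := by simp; ring
    have e2 : b + ((a :: s).sum + t.sum) = (a :: s).sum + (b :: t).sum := by simp; ring
    have e3 : a + b + (s.sum + t.sum) = (a :: s).sum + (b :: t).sum := by simp; ring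
    rw [e1] at k1
    rw [e2] at k2
    rw [e3] at k3
    exact (W _).add_mem ((W _).add_mem k1 k2) k3
  termination_by s t => s.length + t.length

lemma zt_mul_mem_A (s t : List ℕ) (hs : Adm s) (ht : Adm t) : zt s * zt t ∈ A (s.sum + t.sum) := by
  match s, t, hs, ht with
  | [], t, _, ht =>
    have : zt [] * zt t = zt t := by ext N; simp
    rw [this]
    simpa using zt_mem_A ht
  | a :: s, [], hs, _ =>
    have : zt (a :: s) * zt [] = zt (a :: s) := by ext N; simp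
    rw [this]
    simpa using zt_mem_A hs
  | a :: s, b :: t, hs, ht =>
    have ha : 2 ≤ a := hs.2 a (by simp)
    have hb : 2 ≤ b := ht.2 b (by simp)
    have hs' : Pos s := fun c hc => hs.1 c (by simp [hc])
    have ht' : Pos t := fun c hc => ht.1 c (by simp [hc])
    have h1 := zt_mul_mem_W s (b :: t) hs' ht.1
    have h2 := zt_mul_mem_W (a :: s) t hs.1 ht'
    have h3 := zt_mul_mem_W s t hs' ht'
    have k1 := T_mem_A ha h1
    have k2 := T_mem_A hb h2
    have k3 := T_mem_A (by omega : 2 ≤ a + b) h3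
    rw [zt_cons, zt_cons, T_mul_T, ← zt_cons, ← zt_cons]
    have e1 : a + (s.sum + (b :: t).sum) = (a :: s).sum + (b :: t).sum := by simp; ring
    have e2 : b + ((a :: s).sum + t.sum) = (a :: s).sum + (b :: t).sum := by simp; ring
    have e3 : a + b + (s.sum + t.sum) = (a :: s).sum + (b :: t).sum := by simp; ring
    rw [e1] at k1
    rw [e2] at k2
    rw [e3] at k3
    exact (A _).add_mem ((A _).add_mem k1 k2) k3

/-- product closure for truncated sums -/
lemma mul_mem_A {m n : ℕ} {f g : ℕ → ℝ} (hf : f ∈ A m) (hg : g ∈ A n) : f * g ∈ A (m + n) := by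
  rw [A] at hf
  induction hf using Submodule.span_induction with
  | mem f hf =>
    obtain ⟨s, hs, rfl, rfl⟩ := hf
    rw [A] at hg
    induction hg using Submodule.span_induction with
    | mem g hg =>
      obtain ⟨t, ht, rfl, rfl⟩ := hg
      exact zt_mul_mem_A s t hs ht
    | zero => rw [mul_zero]; exact Submodule.zero_mem _
    | add x y _ _ hx hy => rw [mul_add]; exact Submodule.add_mem _ hx hy
    | smul c x _ hx => rw [mul_smul_comm]; exact Submodule.smul_mem _ _ hx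
  | zero => rw [zero_mul]; exact Submodule.zero_mem _
  | add x y _ _ hx hy => rw [add_mul]; exact Submodule.add_mem _ hx hy
  | smul c x _ hx => rw [smul_mul_assoc]; exact Submodule.smul_mem _ _ hx

/-! ### growth and convergence -/

lemma zt_nonneg (s : List ℕ) (N : ℕ) : 0 ≤ zt s N := by
  induction s generalizing N with
  | nil => simp
  | cons a s ih =>
    rw [zt_cons, T_apply]
    apply Finset.sum_nonneg
    intro n _
    have := ih n
    positivity

lemma zt_mono (s : List ℕ) : Monotone (zt s) := by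
  cases s with
  | nil => intro a b _; simp
  | cons a s =>
    apply monotone_nat_of_le_succ
    intro N
    rw [zt_cons, T_succ]
    have := zt_nonneg s N
    have h2 : 0 ≤ (((N + 1 : ℕ) : ℝ) ^ a)⁻¹ * zt s N := by positivity
    linarith

/-- truncated harmonic sums -/
noncomputable def H (N : ℕ) : ℝ := T 1 (fun _ => 1) N

lemma H_nonneg (N : ℕ) : 0 ≤ H N := zt_nonneg [1] N

lemma zt_le_H {s : List ℕ} (hs : Pos s) (N : ℕ) : zt s N ≤ H N ^ s.length := by
  induction s generalizing N with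
  | nil => simp
  | cons a s ih =>
    have hs' : Pos s := fun c hc => hs c (by simp [hc])
    have ha : 1 ≤ a := hs a (by simp)
    rw [zt_cons, T_apply, List.length_cons, pow_succ, H, T_apply, Finset.mul_sum]
    apply Finset.sum_le_sum
    intro n hn
    have hn' : n ≤ N := (Finset.mem_range.mp hn).le
    have h1 : zt s n ≤ H N ^ s.length := (zt_mono s hn').trans (ih hs' N)
    have h2 : (((n + 1 : ℕ) : ℝ) ^ a)⁻¹ ≤ (((n + 1 : ℕ) : ℝ) ^ 1)⁻¹ := by
      apply inv_anti₀ (by positivity)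
      apply pow_le_pow_right₀ _ ha
      exact_mod_cast Nat.succ_le_succ (Nat.zero_le n)
    have h3 : 0 ≤ zt s n := zt_nonneg s n
    have h4 : 0 ≤ H N ^ s.length := pow_nonneg (H_nonneg N) _
    calc (((n + 1 : ℕ) : ℝ) ^ a)⁻¹ * zt s n ≤ (((n + 1 : ℕ) : ℝ) ^ 1)⁻¹ * H N ^ s.length := by
          apply mul_le_mul h2 h1 h3 (by positivity)
      _ = H N ^ s.length * ((((n + 1 : ℕ) : ℝ) ^ 1)⁻¹ * 1) := by ring

lemma H_le_log (N : ℕ) : H N ≤ 1 + Real.log (N + 1) := by
  have h := harmonic_le_one_add_log N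
  have e : H N = ((harmonic N : ℚ) : ℝ) := by
    rw [H, T_apply, harmonic]
    push_cast
    apply Finset.sum_congr rfl
    intro n _
    simp
  rw [e]
  refine h.trans ?_
  rcases Nat.eq_zero_or_pos N with h0 | h0
  · simp [h0]
  · have : Real.log (N:ℝ) ≤ Real.log (N + 1) := Real.log_le_log (by exact_mod_cast h0) (by linarith)
    linarith

/-- powers of the logarithm are dominated by `√` -/
lemma exists_pow_bound (k : ℕ) : ∃ C : ℝ, 0 ≤ C ∧ ∀ N : ℕ, H N ^ k ≤ C * ((N + 1 : ℕ) : ℝ) ^ ((1:ℝ)/2) := by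
  set ε : ℝ := 1 / (2 * (k + 1)) with hε
  have hε0 : 0 < ε := by positivity
  refine ⟨(1 + 1/ε) ^ k, by positivity, fun N => ?_⟩
  set x : ℝ := ((N + 1 : ℕ) : ℝ) with hx
  have hx1 : 1 ≤ x := by rw [hx]; exact_mod_cast Nat.succ_le_succ (Nat.zero_le N)
  have h1 : H N ≤ (1 + 1/ε) * x ^ ε := by
    have h2 := H_le_log N
    have h3 : Real.log x ≤ x ^ ε / ε := Real.log_le_rpow_div (by linarith) hε0
    have h4 : 1 ≤ x ^ ε := Real.one_le_rpow hx1 hε0.le
    have h5 : (N:ℝ) + 1 = x := by rw [hx]; push_cast; ring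
    rw [h5] at h2
    calc H N ≤ 1 + Real.log x := h2
      _ ≤ x ^ ε + x ^ ε / ε := add_le_add h4 h3
      _ = (1 + 1/ε) * x ^ ε := by ring
  calc H N ^ k ≤ ((1 + 1/ε) * x ^ ε) ^ k := pow_le_pow_left₀ (H_nonneg N) h1 k
    _ = (1 + 1/ε) ^ k * x ^ (ε * k) := by
        rw [mul_pow, ← Real.rpow_natCast (x ^ ε) k, ← Real.rpow_mul (by linarith)]
    _ ≤ (1 + 1/ε) ^ k * x ^ ((1:ℝ)/2) := by
        apply mul_le_mul_of_nonneg_left _ (by positivity)
        apply Real.rpow_le_rpow_of_exponent_le hx1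
        rw [hε]
        have : (0:ℝ) ≤ k := Nat.cast_nonneg k
        rw [div_mul_eq_mul_div, one_mul, div_le_div_iff₀ (by positivity) (by norm_num)]
        linarith

/-- admissible truncated sums are bounded -/
lemma zt_bounded {s : List ℕ} (hs : Adm s) : ∃ C : ℝ, ∀ N, zt s N ≤ C := by
  match s, hs with
  | [], _ => exact ⟨1, fun N => by simp⟩
  | a :: w, hs =>
    have ha : 2 ≤ a := hs.2 a (by simp)
    have hw : Pos w := fun c hc => hs.1 c (by simp [hc])
    obtain ⟨C, hC0, hC⟩ := exists_pow_bound w.length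
    have hsum : Summable (fun n : ℕ => C * (((n + 1 : ℕ) : ℝ) ^ ((3:ℝ)/2))⁻¹) := by
      apply Summable.mul_left
      have h1 : Summable (fun n : ℕ => ((n : ℝ) ^ ((3:ℝ)/2))⁻¹) :=
        Real.summable_nat_rpow_inv.mpr (by norm_num)
      exact (summable_nat_add_iff 1).mpr h1
    refine ⟨∑' n : ℕ, C * (((n + 1 : ℕ) : ℝ) ^ ((3:ℝ)/2))⁻¹, fun N => ?_⟩
    rw [zt_cons, T_apply]
    calc ∑ n ∈ Finset.range N, (((n + 1 : ℕ) : ℝ) ^ a)⁻¹ * zt w n
        ≤ ∑ n ∈ Finset.range N, C * (((n + 1 : ℕ) : ℝ) ^ ((3:ℝ)/2))⁻¹ := by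
          apply Finset.sum_le_sum
          intro n _
          set x : ℝ := ((n + 1 : ℕ) : ℝ) with hx
          have hx1 : 1 ≤ x := by rw [hx]; exact_mod_cast Nat.succ_le_succ (Nat.zero_le n)
          have hx0 : 0 < x := by linarith
          have h1 : (x ^ a)⁻¹ ≤ (x ^ (2:ℕ))⁻¹ := by
            apply inv_anti₀ (by positivity)
            exact pow_le_pow_right₀ hx1 ha
          have h2 : zt w n ≤ C * x ^ ((1:ℝ)/2) := (zt_le_H hw n).trans (hC n)
          calc (x ^ a)⁻¹ * zt w n ≤ (x ^ (2:ℕ))⁻¹ * (C * x ^ ((1:ℝ)/2)) :=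
                mul_le_mul h1 h2 (zt_nonneg w n) (by positivity)
            _ = C * (x ^ ((3:ℝ)/2))⁻¹ := by
                rw [← Real.rpow_natCast x 2, ← Real.rpow_neg hx0.le, ← Real.rpow_neg hx0.le]
                have : x ^ (-(((2:ℕ):ℝ))) * (C * x ^ ((1:ℝ)/2)) = C * (x ^ (-(((2:ℕ):ℝ))) * x ^ ((1:ℝ)/2)) := by ring
                rw [this, ← Real.rpow_add hx0]
                norm_num
      _ ≤ ∑' n : ℕ, C * (((n + 1 : ℕ) : ℝ) ^ ((3:ℝ)/2))⁻¹ :=
          hsum.sum_le_tsum _ (fun n _ => by positivity)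

/-- the multiple zeta value as the limit of truncated sums -/
noncomputable def mz (s : List ℕ) : ℝ := ⨆ N, zt s N

lemma zt_tendsto {s : List ℕ} (hs : Adm s) : Tendsto (zt s) atTop (𝓝 (mz s)) := by
  obtain ⟨C, hC⟩ := zt_bounded hs
  exact tendsto_atTop_ciSup (zt_mono s) ⟨C, by rintro _ ⟨N, rfl⟩; exact hC N⟩

lemma A_converges {n : ℕ} {f : ℕ → ℝ} (hf : f ∈ A n) : ∃ x : ℝ, Tendsto f atTop (𝓝 x) ∧
    x ∈ Submodule.span ℚ {y : ℝ | ∃ s, Adm s ∧ s.sum = n ∧ y = mz s} := by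
  rw [A] at hf
  induction hf using Submodule.span_induction with
  | mem f hf =>
    obtain ⟨s, hs, h1, rfl⟩ := hf
    exact ⟨mz s, zt_tendsto hs, Submodule.subset_span ⟨s, hs, h1, rfl⟩⟩
  | zero => exact ⟨0, tendsto_const_nhds, Submodule.zero_mem _⟩
  | add f g _ _ hf hg =>
    obtain ⟨x, hx, hx'⟩ := hf
    obtain ⟨y, hy, hy'⟩ := hg
    exact ⟨x + y, hx.add hy, Submodule.add_mem _ hx' hy'⟩
  | smul c f _ hf =>
    obtain ⟨x, hx, hx'⟩ := hf
    exact ⟨c • x, hx.const_smul c, Submodule.smul_mem _ _ hx'⟩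

lemma exists_A_of_mem {n : ℕ} {x : ℝ} (hx : x ∈ Submodule.span ℚ {y : ℝ | ∃ s, Adm s ∧ s.sum = n ∧ y = mz s}) :
    ∃ f ∈ A n, Tendsto f atTop (𝓝 x) := by
  induction hx using Submodule.span_induction with
  | mem x hx =>
    obtain ⟨s, hs, h1, rfl⟩ := hx
    exact ⟨zt s, Submodule.subset_span ⟨s, hs, h1, rfl⟩, zt_tendsto hs⟩
  | zero => exact ⟨0, Submodule.zero_mem _, tendsto_const_nhds⟩
  | add x y _ _ hx hy =>
    obtain ⟨f, hf, hf'⟩ := hx
    obtain ⟨g, hg, hg'⟩ := hy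
    exact ⟨f + g, Submodule.add_mem _ hf hg, hf'.add hg'⟩
  | smul c x _ hx =>
    obtain ⟨f, hf, hf'⟩ := hx
    exact ⟨c • f, Submodule.smul_mem _ _ hf, hf'.const_smul c⟩

/-- product closure -/
theorem mul_mem_span {m n : ℕ} {x y : ℝ}
    (hx : x ∈ Submodule.span ℚ {y : ℝ | ∃ s, Adm s ∧ s.sum = m ∧ y = mz s})
    (hy : y ∈ Submodule.span ℚ {y : ℝ | ∃ s, Adm s ∧ s.sum = n ∧ y = mz s}) :
    x * y ∈ Submodule.span ℚ {y : ℝ | ∃ s, Adm s ∧ s.sum = m + n ∧ y = mz s} := by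
  obtain ⟨f, hf, hf'⟩ := exists_A_of_mem hx
  obtain ⟨g, hg, hg'⟩ := exists_A_of_mem hy
  obtain ⟨z, hz, hz'⟩ := A_converges (mul_mem_A hf hg)
  have := tendsto_nhds_unique hz (hf'.mul hg')
  rwa [this] at hz'

end Helper58.MZV
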