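import Mathlib
import Pool.Agent.Lib.Helper58.MZVStuffle

/-!
Multiple zeta values as infinite series, the spaces of given weight, and product closure.
-/

set_option autoImplicit false

namespace Helper58.MZV

open Filter Topology

open Classical in
/-- strictly decreasing positive tuples bounded by `N` -/
noncomputable def F (k N : ℕ) : Finset (Fin k → ℕ) :=
  (Fintype.piFinset (fun _ : Fin k => Finset.Icc 1 N)).filter (fun m => StrictAnti m)

lemma mem_F {k N : ℕ} {m : Fin k → ℕ} : m ∈ F k N ↔ (∀ i, 1 ≤ m i ∧ m i ≤ N) ∧ StrictAnti m := by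
  simp [F]

lemma strictAnti_cons {k : ℕ} {a : ℕ} {m : Fin k → ℕ} (hm : StrictAnti m) (ha : ∀ i, m i < a) :
    StrictAnti (Fin.cons a m : Fin (k + 1) → ℕ) := by
  intro i j hij
  induction j using Fin.cases with
  | zero => exact absurd hij (Fin.not_lt_zero i)
  | succ j =>
    induction i using Fin.cases with
    | zero => simpa using ha j
    | succ i => simpa using hm (Fin.succ_lt_succ_iff.mp hij)

lemma sum_F (k : ℕ) : ∀ (s : Fin k → ℕ) (N : ℕ),
    ∑ m ∈ F k N, ∏ i, (((m i : ℕ) : ℝ) ^ (s i))⁻¹ = zt (List.ofFn s) N := by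
  induction k with
  | zero =>
    intro s N
    have : F 0 N = {fun i => i.elim0} := by
      ext m
      rw [mem_F, Finset.mem_singleton]
      constructor
      · intro _; ext i; exact i.elim0
      · rintro rfl
        exact ⟨fun i => i.elim0, fun i => i.elim0⟩
    rw [this]
    simp
  | succ k ih =>
    intro s N
    rw [List.ofFn_succ, zt_cons, T_apply]
    simp only [← ih (fun i => s i.succ), Finset.mul_sum]
    rw [Finset.sum_sigma']
    symm
    refine Finset.sum_bij' (fun x _ => (Fin.cons (x.1 + 1) x.2 : Fin (k + 1) → ℕ))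
      (fun m _ => ⟨m 0 - 1, Fin.tail m⟩) ?_ ?_ ?_ ?_ ?_
    · rintro ⟨n, m⟩ hx
      rw [Finset.mem_sigma, Finset.mem_range, mem_F] at hx
      simp only at hx
      obtain ⟨hn, hm, hanti⟩ := hx
      rw [mem_F]
      refine ⟨fun i => ?_, strictAnti_cons hanti (fun i => Nat.lt_succ_of_le (hm i).2)⟩
      induction i using Fin.cases with
      | zero => simp only [Fin.cons_zero]; omega
      | succ i => simp only [Fin.cons_succ]; have := hm i; omega
    · intro m hm
      rw [mem_F] at hm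
      obtain ⟨hm, hanti⟩ := hm
      rw [Finset.mem_sigma, Finset.mem_range, mem_F]
      simp only
      have h0 := hm 0
      refine ⟨by omega, fun i => ?_, fun i j hij => hanti (Fin.succ_lt_succ_iff.mpr hij)⟩
      have h1 := hanti (Fin.succ_pos i)
      have h2 := hm i.succ
      simp only [Fin.tail]
      omega
    · rintro ⟨n, m⟩ _
      simp
    · intro m hm
      rw [mem_F] at hm
      have h0 := hm.1 0
      simp only
      have : m 0 - 1 + 1 = m 0 := by omega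
      rw [this, Fin.cons_self_tail]
    · rintro ⟨n, m⟩ _
      simp only
      rw [Fin.prod_univ_succ]
      simp

/-- the multiple zeta value of an index, as an infinite series -/
noncomputable def mzv {k : ℕ} (s : Fin k → ℕ) : ℝ :=
  ∑' m : {m : Fin k → ℕ // StrictAnti m ∧ ∀ i, 0 < m i}, ∏ i, (((m.1 i : ℕ) : ℝ) ^ (s i))⁻¹

lemma tsum_eq_of_exhaust {β : Type} {g : β → ℝ} (hg0 : ∀ x, 0 ≤ g x) {FF : ℕ → Finset β}
    (hmono : Monotone FF) (hex : ∀ x, ∃ N, x ∈ FF N) {z : ℕ → ℝ} (hz : ∀ N, ∑ x ∈ FF N, g x = z N)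
    {C : ℝ} (hC : ∀ N, z N ≤ C) {l : ℝ} (hl : Tendsto z atTop (𝓝 l)) : ∑' x, g x = l := by
  have htop : Tendsto FF atTop atTop := tendsto_atTop_finset_of_monotone hmono hex
  have hsum : Summable g := by
    apply summable_of_sum_le (c := C) hg0
    intro u
    obtain ⟨N, hN⟩ := (htop.eventually (eventually_ge_atTop u)).exists
    calc ∑ x ∈ u, g x ≤ ∑ x ∈ FF N, g x :=
          Finset.sum_le_sum_of_subset_of_nonneg hN (fun x _ _ => hg0 x)
      _ = z N := hz N
      _ ≤ C := hC N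
  have h1 := hsum.hasSum.comp htop
  have h2 : Tendsto z atTop (𝓝 (∑' x, g x)) := by
    refine h1.congr (fun N => ?_)
    exact hz N
  exact tendsto_nhds_unique h2 hl

open Classical in
lemma mzv_eq {k : ℕ} (s : Fin k → ℕ) (hs : Adm (List.ofFn s)) : mzv s = mz (List.ofFn s) := by
  obtain ⟨C, hC⟩ := zt_bounded hs
  rw [mzv]
  apply tsum_eq_of_exhaust (FF := fun N => (F k N).subtype (fun m => StrictAnti m ∧ ∀ i, 0 < m i))
    (z := zt (List.ofFn s)) (C := C) _ _ _ _ hC (zt_tendsto hs)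
  · intro x
    exact Finset.prod_nonneg fun i _ => by positivity
  · intro a b hab x hx
    rw [Finset.mem_subtype, mem_F] at hx ⊢
    exact ⟨fun i => ⟨(hx.1 i).1, (hx.1 i).2.trans hab⟩, hx.2⟩
  · intro x
    refine ⟨∑ i, x.1 i, ?_⟩
    rw [Finset.mem_subtype, mem_F]
    refine ⟨fun i => ⟨x.2.2 i, ?_⟩, x.2.1⟩
    exact Finset.single_le_sum (f := fun i => x.1 i) (fun _ _ => Nat.zero_le _) (Finset.mem_univ i)
  · intro N
    rw [← sum_F]
    rw [Finset.sum_subtype_eq_sum_filter (f := fun m : Fin k → ℕ => ∏ i, (((m i : ℕ) : ℝ) ^ (s i))⁻¹)]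
    apply Finset.sum_congr _ (fun _ _ => rfl)
    ext m
    rw [Finset.mem_filter, mem_F]
    constructor
    · exact fun h => h.1
    · exact fun h => ⟨h, h.2, fun i => (h.1 i).1⟩

/-- `𝒵_n`: the rational span of the multiple zeta values of weight `n` (the span in the frozen
statement of the problem) -/
noncomputable def Z (n : ℕ) : Submodule ℚ ℝ :=
  Submodule.span ℚ {x : ℝ | ∃ k : ℕ, ∃ s : Fin k → ℕ,
    (∀ i, 1 ≤ s i) ∧ (∀ h : 0 < k, 2 ≤ s ⟨0, h⟩) ∧ (∑ i, s i) = n ∧ x = mzv s}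

lemma adm_ofFn {k : ℕ} {s : Fin k → ℕ} (h1 : ∀ i, 1 ≤ s i) (h2 : ∀ h : 0 < k, 2 ≤ s ⟨0, h⟩) :
    Adm (List.ofFn s) := by
  constructor
  · intro a ha
    rw [List.mem_ofFn] at ha
    obtain ⟨i, rfl⟩ := ha
    exact h1 i
  · intro a ha
    cases k with
    | zero => simp at ha
    | succ k =>
      rw [List.ofFn_succ] at ha
      simp at ha
      rw [← ha]
      exact h2 (Nat.succ_pos k)

lemma Z_eq (n : ℕ) : Z n = Submodule.span ℚ {y : ℝ | ∃ s, Adm s ∧ s.sum = n ∧ y = mz s} := by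
  rw [Z]
  congr 1
  ext x
  simp only [Set.mem_ofPred_eq]
  constructor
  · rintro ⟨k, s, h1, h2, h3, rfl⟩
    exact ⟨List.ofFn s, adm_ofFn h1 h2, by rw [List.sum_ofFn, h3], mzv_eq s (adm_ofFn h1 h2)⟩
  · rintro ⟨s, hs, h3, rfl⟩
    refine ⟨s.length, s.get, fun i => hs.1 _ (s.get_mem i), ?_, ?_, ?_⟩
    · intro h
      apply hs.2
      cases s with
      | nil => simp at h
      | cons a s => simp
    · rw [← List.sum_ofFn, List.ofFn_get, h3]
    · rw [mzv_eq, List.ofFn_get]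
      rw [List.ofFn_get]; exact hs

theorem mul_mem_Z {m n : ℕ} {x y : ℝ} (hx : x ∈ Z m) (hy : y ∈ Z n) : x * y ∈ Z (m + n) := by
  rw [Z_eq] at *
  exact mul_mem_span hx hy

lemma finite_gens (n : ℕ) : Set.Finite {x : ℝ | ∃ k : ℕ, ∃ s : Fin k → ℕ,
    (∀ i, 1 ≤ s i) ∧ (∀ h : 0 < k, 2 ≤ s ⟨0, h⟩) ∧ (∑ i, s i) = n ∧ x = mzv s} := by
  have : {x : ℝ | ∃ k : ℕ, ∃ s : Fin k → ℕ,
    (∀ i, 1 ≤ s i) ∧ (∀ h : 0 < k, 2 ≤ s ⟨0, h⟩) ∧ (∑ i, s i) = n ∧ x = mzv s} ⊆
    ⋃ k ∈ Finset.range (n + 1), ((fun s : Fin k → ℕ => mzv s) ''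
      ((Fintype.piFinset (fun _ : Fin k => Finset.range (n + 1)) : Finset (Fin k → ℕ)) : Set (Fin k → ℕ))) := by
    rintro x ⟨k, s, h1, h2, h3, rfl⟩
    simp only [Set.mem_iUnion]
    have hk : k ≤ n := by
      calc k = ∑ _i : Fin k, 1 := by simp
        _ ≤ ∑ i, s i := Finset.sum_le_sum fun i _ => h1 i
        _ = n := h3
    refine ⟨k, Finset.mem_range.mpr (by omega), s, ?_, rfl⟩
    rw [Finset.mem_coe, Fintype.mem_piFinset]
    intro i
    rw [Finset.mem_range]
    have : s i ≤ ∑ i, s i := Finset.single_le_sum (f := s) (fun _ _ => Nat.zero_le _) (Finset.mem_univ i)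
    omega
  refine Set.Finite.subset ?_ this
  apply Set.Finite.biUnion (Finset.finite_toSet _)
  intro k _
  exact (Finset.finite_toSet _).image _

instance (n : ℕ) : Module.Finite ℚ (Z n) := by
  rw [Z]
  exact FiniteDimensional.span_of_finite ℚ (finite_gens n)

lemma one_mem_Z : (1:ℝ) ∈ Z 0 := by
  rw [Z_eq]
  refine Submodule.subset_span ⟨[], ⟨by intro a h; simp at h, by intro a h; simp at h⟩, rfl, ?_⟩
  have h := zt_tendsto (s := []) ⟨by intro a h; simp at h, by intro a h; simp at h⟩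
  exact tendsto_nhds_unique tendsto_const_nhds h

lemma adm_single {a : ℕ} (ha : 2 ≤ a) : Adm [a] := by
  constructor
  · intro b hb
    rw [List.mem_singleton] at hb
    omega
  · intro b hb
    simp at hb
    omega

lemma mz_single {a : ℕ} (ha : 2 ≤ a) : HasSum (fun n : ℕ => (((n + 1 : ℕ) : ℝ) ^ a)⁻¹) (mz [a]) := by
  have hs : Summable (fun n : ℕ => (((n + 1 : ℕ) : ℝ) ^ a)⁻¹) := by
    have h1 : Summable (fun n : ℕ => ((n : ℝ) ^ a)⁻¹) := Real.summable_nat_pow_inv.mpr (by omega)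
    exact (summable_nat_add_iff 1).mpr h1
  have h2 := hs.hasSum.tendsto_sum_nat
  have h3 := zt_tendsto (adm_single ha)
  have h4 : zt [a] = fun N => ∑ n ∈ Finset.range N, (((n + 1 : ℕ) : ℝ) ^ a)⁻¹ := by
    ext N
    simp [T_apply]
  rw [h4] at h3
  rw [← tendsto_nhds_unique h2 h3]
  exact hs.hasSum

lemma mz_single_mem {a : ℕ} (ha : 2 ≤ a) : mz [a] ∈ Z a := by
  rw [Z_eq]
  exact Submodule.subset_span ⟨[a], adm_single ha, by simp, rfl⟩

lemma mz_single_pos {a : ℕ} (ha : 2 ≤ a) : 0 < mz [a] := by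
  have h := mz_single ha
  have h1 : ((((0 + 1 : ℕ) : ℝ) ^ a)⁻¹) ≤ mz [a] := by
    rw [← h.tsum_eq]
    exact h.summable.le_tsum 0 (fun n _ => by positivity)
  have h2 : (0:ℝ) < ((((0 + 1 : ℕ) : ℝ) ^ a)⁻¹) := by norm_num
  linarith

lemma mz_two : mz [2] = Real.pi ^ 2 / 6 := by
  have h := mz_single (le_refl 2)
  have h2 := hasSum_zeta_two
  have h3 : HasSum (fun n : ℕ => (((n + 1 : ℕ) : ℝ) ^ 2)⁻¹) (Real.pi ^ 2 / 6) := by
    have h4 := (hasSum_nat_add_iff' (f := fun n : ℕ => (1:ℝ) / (n:ℝ)^2) 1).mpr h2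
    simpa using h4
  exact h.unique h3

end Helper58.MZV
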