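import Mathlib
import Pool.Agent.Lib.Helper58.MZVSpaces

/-!
The dimensions are eventually the degree of a number field, or tend to infinity.
-/

set_option autoImplicit false

namespace Helper58.MZV

open Filter Topology Module

/-- the dilate of `Z n` by a nonzero real -/
noncomputable def sc (n : ℕ) (c : ℝ) : Submodule ℚ ℝ := (Z n).comap (LinearMap.mulLeft ℚ c)

lemma mem_sc {n : ℕ} {c x : ℝ} : x ∈ sc n c ↔ c * x ∈ Z n := Iff.rfl

lemma finrank_sc (n : ℕ) {c : ℝ} (hc : c ≠ 0) : finrank ℚ (sc n c) = finrank ℚ (Z n) := by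
  let e : ℝ ≃ₗ[ℚ] ℝ := LinearEquiv.ofBijective (LinearMap.mulLeft ℚ c)
    ⟨fun x y h => mul_left_cancel₀ hc h, fun y => ⟨c⁻¹ * y, by simp [hc]⟩⟩
  have h1 : (sc n c).map (e : ℝ →ₗ[ℚ] ℝ) = Z n := by
    apply Submodule.map_comap_eq_of_surjective e.surjective
  rw [← h1, LinearEquiv.finrank_map_eq]

instance sc_finite (n : ℕ) (c : ℝ) [hc : NeZero c] : Module.Finite ℚ (sc n c) := by
  apply Module.Finite.of_injective ((LinearMap.mulLeft ℚ c).restrict (p := sc n c) (q := Z n) (fun x hx => hx))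
  intro x y h
  have h2 : c * (x:ℝ) = c * (y:ℝ) := congrArg Subtype.val h
  exact Subtype.ext (mul_left_cancel₀ hc.out h2)

instance : NeZero Real.pi := ⟨Real.pi_ne_zero⟩

/-- `ζ(3)` -/
noncomputable def z3 : ℝ := mz [3]

lemma z3_pos : 0 < z3 := mz_single_pos (by norm_num)
instance : NeZero z3 := ⟨z3_pos.ne'⟩

lemma z3_mem : z3 ∈ Z 3 := mz_single_mem (by norm_num)

lemma pi_sq_mem : Real.pi ^ 2 ∈ Z 2 := by
  have h := mz_single_mem (le_refl 2)
  rw [mz_two] at h
  have h2 := (Z 2).smul_mem (6:ℚ) h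
  have : (6:ℚ) • (Real.pi ^ 2 / 6) = Real.pi ^ 2 := by
    rw [Rat.smul_def]; push_cast; ring
  rwa [this] at h2

/-- normalised spaces of even weight -/
noncomputable def R (n : ℕ) : Submodule ℚ ℝ := sc (2 * n) (Real.pi ^ (2 * n))
/-- normalised spaces of odd weight -/
noncomputable def O (n : ℕ) : Submodule ℚ ℝ := sc (2 * n + 3) (z3 * Real.pi ^ (2 * n))

instance (n : ℕ) : Module.Finite ℚ (R n) := sc_finite _ _
instance (n : ℕ) : Module.Finite ℚ (O n) := sc_finite _ _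

lemma mem_R {n : ℕ} {x : ℝ} : x ∈ R n ↔ Real.pi ^ (2 * n) * x ∈ Z (2 * n) := Iff.rfl
lemma mem_O {n : ℕ} {x : ℝ} : x ∈ O n ↔ z3 * Real.pi ^ (2 * n) * x ∈ Z (2 * n + 3) := Iff.rfl

lemma finrank_R (n : ℕ) : finrank ℚ (R n) = finrank ℚ (Z (2 * n)) :=
  finrank_sc _ (pow_ne_zero _ Real.pi_ne_zero)

lemma finrank_O (n : ℕ) : finrank ℚ (O n) = finrank ℚ (Z (2 * n + 3)) :=
  finrank_sc _ (mul_ne_zero z3_pos.ne' (pow_ne_zero _ Real.pi_ne_zero))

lemma R_succ_le (n : ℕ) : R n ≤ R (n + 1) := by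
  intro x hx
  rw [mem_R] at hx ⊢
  have h := mul_mem_Z pi_sq_mem hx
  have e1 : 2 + 2 * n = 2 * (n + 1) := by ring
  have e2 : Real.pi ^ 2 * (Real.pi ^ (2 * n) * x) = Real.pi ^ (2 * (n + 1)) * x := by ring
  rwa [e1, e2] at h

lemma R_mono : Monotone R := monotone_nat_of_le_succ R_succ_le

lemma R_mul {m n : ℕ} {x y : ℝ} (hx : x ∈ R m) (hy : y ∈ R n) : x * y ∈ R (m + n) := by
  rw [mem_R] at *
  have h := mul_mem_Z hx hy
  have e1 : 2 * m + 2 * n = 2 * (m + n) := by ring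
  have e2 : Real.pi ^ (2 * m) * x * (Real.pi ^ (2 * n) * y) = Real.pi ^ (2 * (m + n)) * (x * y) := by ring
  rwa [e1, e2] at h

lemma one_mem_R (n : ℕ) : (1:ℝ) ∈ R n := by
  apply R_mono (Nat.zero_le n)
  rw [mem_R]
  simpa using one_mem_Z

lemma R_le_O (n : ℕ) : R n ≤ O n := by
  intro x hx
  rw [mem_R] at hx
  rw [mem_O]
  have h := mul_mem_Z z3_mem hx
  have e1 : 3 + 2 * n = 2 * n + 3 := by ring
  have e2 : z3 * (Real.pi ^ (2 * n) * x) = z3 * Real.pi ^ (2 * n) * x := by ring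
  rwa [e1, e2] at h

/-- `θ² = ζ(3)²/π⁶` -/
lemma O_mul_mem {n : ℕ} {x : ℝ} (hx : x ∈ O n) : z3 ^ 2 / Real.pi ^ 6 * x ∈ R (n + 3) := by
  rw [mem_O] at hx
  rw [mem_R]
  have h := mul_mem_Z z3_mem hx
  have e1 : 3 + (2 * n + 3) = 2 * (n + 3) := by ring
  have e2 : z3 * (z3 * Real.pi ^ (2 * n) * x) = Real.pi ^ (2 * (n + 3)) * (z3 ^ 2 / Real.pi ^ 6 * x) := by
    have : Real.pi ^ (2 * (n + 3)) = Real.pi ^ (2 * n) * Real.pi ^ 6 := by ring
    rw [this]
    field_simp
  rwa [e1, e2] at h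

lemma theta_sq_mem : z3 ^ 2 / Real.pi ^ 6 ∈ R 3 := by
  have h1 : (1:ℝ) ∈ O 0 := R_le_O 0 (one_mem_R 0)
  have h := O_mul_mem h1
  simpa using h

/-- the union of the normalised even spaces stabilises or is unbounded -/
lemma stabilises {B : ℕ} (hB : ∀ n, finrank ℚ (R n) ≤ B) : ∃ N, ∀ n, N ≤ n → R n = R N := by
  have hmono : Monotone (fun n => finrank ℚ (R n)) := fun a b hab => Submodule.finrank_mono (R_mono hab)
  obtain ⟨N, hN⟩ : ∃ N, ∀ n, N ≤ n → finrank ℚ (R n) = finrank ℚ (R N) := by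
    by_contra hcon
    push Not at hcon
    -- the sequence increases infinitely often
    have key : ∀ k, ∃ n, k ≤ finrank ℚ (R n) := by
      intro k
      induction k with
      | zero => exact ⟨0, Nat.zero_le _⟩
      | succ k ih =>
        obtain ⟨n, hn⟩ := ih
        obtain ⟨m, hm, hne⟩ := hcon n
        exact ⟨m, by have := hmono hm; simp only at this; omega⟩
    obtain ⟨n, hn⟩ := key (B + 1)
    have := hB n
    omega
  refine ⟨N, fun n hn => ?_⟩
  exact (Submodule.eq_of_le_of_finrank_eq (R_mono hn) (hN n hn).symm).symm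

theorem dichotomy :
    (∃ (K : IntermediateField ℚ ℝ) (N : ℕ), FiniteDimensional ℚ K ∧
      (z3 / Real.pi ^ 3) ^ 2 ∈ K ∧
      (∀ n, ∀ x ∈ Z (2 * n), x / Real.pi ^ (2 * n) ∈ K) ∧
      (∀ n, ∀ x ∈ Z (2 * n + 3), x / (z3 * Real.pi ^ (2 * n)) ∈ K) ∧
      ∀ n, N ≤ n → finrank ℚ (Z n) = finrank ℚ K) ∨
    Tendsto (fun n => finrank ℚ (Z n)) atTop atTop := by
  by_cases hB : ∃ B, ∀ n, finrank ℚ (R n) ≤ B
  · left
    obtain ⟨B, hB⟩ := hB
    obtain ⟨N, hN⟩ := stabilises hB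
    have hall : ∀ n, R n ≤ R N := by
      intro n
      rcases le_total n N with h | h
      · exact R_mono h
      · exact (hN n h).le
    -- the subalgebra
    let S : Subalgebra ℚ ℝ :=
      { carrier := R N
        mul_mem' := fun {a b} ha hb => hall _ (R_mul ha hb)
        one_mem' := one_mem_R N
        add_mem' := fun {a b} ha hb => (R N).add_mem ha hb
        zero_mem' := (R N).zero_mem
        algebraMap_mem' := fun q => by
          have := (R N).smul_mem q (one_mem_R N)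
          rwa [Rat.smul_def, mul_one] at this }
    have hSfin : FiniteDimensional ℚ S := (inferInstance : Module.Finite ℚ (R N))
    have hSalg : S.IsAlgebraic := by
      intro x hx
      have h1 : IsAlgebraic ℚ (⟨x, hx⟩ : S) := Algebra.IsAlgebraic.isAlgebraic _
      exact h1.algebraMap
    let K : IntermediateField ℚ ℝ := hSalg.toIntermediateField
    have hmemK : ∀ x, x ∈ K ↔ x ∈ R N := fun x => Iff.rfl
    let e : K ≃ₗ[ℚ] R N :=
      { toFun := fun x => ⟨x.1, x.2⟩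
        invFun := fun x => ⟨x.1, x.2⟩
        map_add' := fun _ _ => rfl
        map_smul' := fun _ _ => rfl
        left_inv := fun _ => rfl
        right_inv := fun _ => rfl }
    have hθ : z3 ^ 2 / Real.pi ^ 6 ∈ K := (hmemK _).mpr (hall _ theta_sq_mem)
    have hθ0 : z3 ^ 2 / Real.pi ^ 6 ≠ 0 :=
      div_ne_zero (pow_ne_zero _ z3_pos.ne') (pow_ne_zero _ Real.pi_ne_zero)
    have hO : ∀ n, ∀ y ∈ O n, y ∈ K := by
      intro n y hy
      have h1 : z3 ^ 2 / Real.pi ^ 6 * y ∈ K := (hmemK _).mpr (hall _ (O_mul_mem hy))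
      have h2 := K.mul_mem (K.inv_mem hθ) h1
      rwa [← mul_assoc, inv_mul_cancel₀ hθ0, one_mul] at h2
    refine ⟨K, 2 * N + 3, e.symm.finiteDimensional, ?_, ?_, ?_, ?_⟩
    · have : (z3 / Real.pi ^ 3) ^ 2 = z3 ^ 2 / Real.pi ^ 6 := by ring
      rw [this]; exact hθ
    · intro n x hx
      rw [hmemK]
      apply hall n
      rw [mem_R, mul_div_cancel₀ _ (pow_ne_zero _ Real.pi_ne_zero)]
      exact hx
    · intro n x hx
      apply hO n
      rw [mem_O, mul_div_cancel₀ _ (mul_ne_zero z3_pos.ne' (pow_ne_zero _ Real.pi_ne_zero))]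
      exact hx
    · intro n hn
      rw [e.finrank_eq]
      rcases Nat.even_or_odd' n with ⟨k, rfl | rfl⟩
      · rw [← finrank_R, hN k (by omega)]
      · obtain ⟨j, rfl⟩ : ∃ j, k = j + 1 := ⟨k - 1, by omega⟩
        have e1 : 2 * (j + 1) + 1 = 2 * j + 3 := by ring
        rw [e1, ← finrank_O]
        have e2 : O j = R N := by
          apply le_antisymm
          · intro y hy
            exact (hmemK y).mp (hO j y hy)
          · rw [← hN j (by omega)]
            exact R_le_O j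
        rw [e2]
  · right
    push Not at hB
    rw [tendsto_atTop]
    intro b
    obtain ⟨n₀, hn₀⟩ := hB b
    filter_upwards [eventually_ge_atTop (2 * n₀ + 3)] with n hn
    rcases Nat.even_or_odd' n with ⟨k, rfl | rfl⟩
    · rw [← finrank_R]
      have := Submodule.finrank_mono (R_mono (show n₀ ≤ k by omega))
      omega
    · obtain ⟨j, rfl⟩ : ∃ j, k = j + 1 := ⟨k - 1, by omega⟩
      have e1 : 2 * (j + 1) + 1 = 2 * j + 3 := by ring
      rw [e1, ← finrank_O]
      have h1 := Submodule.finrank_mono (R_mono (show n₀ ≤ j by omega))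
      have h2 := Submodule.finrank_mono (R_le_O j)
      omega

end Helper58.MZV
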