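import Mathlib
import Pool.Agent.Lib.Helper58.MZVDichotomy

/-!
Polynomial growth from algebraically independent normalised values.
-/

set_option autoImplicit false

namespace Helper58.MZV

open Filter Topology Module

lemma R_pow {n : ℕ} {x : ℝ} (hx : x ∈ R n) (k : ℕ) : x ^ k ∈ R (k * n) := by
  induction k with
  | zero => simpa using one_mem_R 0
  | succ k ih =>
    rw [pow_succ, add_mul, one_mul]
    exact R_mul ih hx

lemma R_prod {ι : Type} (s : Finset ι) {x : ι → ℝ} {n : ι → ℕ} (h : ∀ i ∈ s, x i ∈ R (n i)) :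
    ∏ i ∈ s, x i ∈ R (∑ i ∈ s, n i) := by
  classical
  induction s using Finset.induction_on with
  | empty => simpa using one_mem_R 0
  | insert a s ha ih =>
    rw [Finset.prod_insert ha, Finset.sum_insert ha]
    exact R_mul (h a (Finset.mem_insert_self _ _)) (ih fun i hi => h i (Finset.mem_insert_of_mem hi))

lemma sq_mem_R {w : ℕ} {x : ℝ} (hx : x ∈ Z w) : (x / Real.pi ^ w) ^ 2 ∈ R w := by
  rw [mem_R]
  have h := mul_mem_Z hx hx
  have e1 : w + w = 2 * w := by ring
  have e2 : x * x = Real.pi ^ (2 * w) * (x / Real.pi ^ w) ^ 2 := by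
    rw [div_pow, pow_mul']
    field_simp
  rwa [e1, e2] at h

/-- the box of monomials -/
theorem box_le {r : ℕ} (w : Fin r → ℕ) (x : Fin r → ℝ) (hx : ∀ i, x i ∈ Z (w i))
    (hind : AlgebraicIndependent ℚ (fun i => x i / Real.pi ^ (w i))) (k : ℕ) :
    (k + 1) ^ r ≤ finrank ℚ (R (k * ∑ i, w i)) := by
  set u : Fin r → ℝ := fun i => x i / Real.pi ^ (w i) with hu
  have h1 : LinearIndependent ℚ (fun e : Fin r →₀ ℕ => MvPolynomial.aeval u (MvPolynomial.monomial e (1:ℚ))) := by
    have h2 := (MvPolynomial.basisMonomials (Fin r) ℚ).linearIndependent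
    have h3 := h2.map' (MvPolynomial.aeval u).toLinearMap (LinearMap.ker_eq_bot.mpr hind)
    exact h3
  let φ : (Fin r → Fin (k + 1)) → (Fin r →₀ ℕ) := fun e => Finsupp.equivFunOnFinite.symm (fun i => 2 * (e i : ℕ))
  have hφ : Function.Injective φ := by
    intro a b hab
    ext i
    have := DFunLike.congr_fun hab i
    simp only [φ, Finsupp.equivFunOnFinite_symm_apply_apply] at this
    omega
  have h4 := h1.comp φ hφ
  have h5 : ∀ e, MvPolynomial.aeval u (MvPolynomial.monomial (φ e) (1:ℚ)) ∈ R (k * ∑ i, w i) := by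
    intro e
    rw [MvPolynomial.aeval_monomial, map_one, one_mul, Finsupp.prod_fintype _ _ (fun i => pow_zero _)]
    have h6 : ∀ i ∈ Finset.univ, u i ^ (φ e i) ∈ R ((e i : ℕ) * w i) := by
      intro i _
      have : u i ^ (φ e i) = ((x i / Real.pi ^ (w i)) ^ 2) ^ (e i : ℕ) := by
        simp only [φ, Finsupp.equivFunOnFinite_symm_apply_apply, hu]
        rw [← pow_mul]
      rw [this]
      exact R_pow (sq_mem_R (hx i)) _
    have h7 := R_prod Finset.univ h6
    apply R_mono _ h7
    rw [Finset.mul_sum]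
    apply Finset.sum_le_sum
    intro i _
    apply Nat.mul_le_mul_right
    have := (e i).2
    omega
  let g : (Fin r → Fin (k + 1)) → R (k * ∑ i, w i) := fun e => ⟨_, h5 e⟩
  have h8 : LinearIndependent ℚ g := by
    apply LinearIndependent.of_comp (R (k * ∑ i, w i)).subtype
    exact h4
  have h9 := h8.fintype_card_le_finrank
  simpa using h9

theorem growth {r : ℕ} (w : Fin r → ℕ) (x : Fin r → ℝ) (hx : ∀ i, x i ∈ Z (w i))
    (hind : AlgebraicIndependent ℚ (fun i => x i / Real.pi ^ (w i))) :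
    ∃ c : ℝ, 0 < c ∧ ∀ᶠ n : ℕ in atTop, c * (n : ℝ) ^ r ≤ (finrank ℚ (Z n) : ℝ) := by
  set W : ℕ := (∑ i, w i) + 1 with hW
  refine ⟨(1 / (4 * W)) ^ r, by positivity, ?_⟩
  filter_upwards [eventually_ge_atTop 6] with n hn
  set k : ℕ := (n - 3) / (2 * W) with hk
  have hW0 : 0 < W := by omega
  have hkW : 2 * (k * W) ≤ n - 3 := by
    have := Nat.div_mul_le_self (n - 3) (2 * W)
    calc 2 * (k * W) = k * (2 * W) := by ring
      _ ≤ n - 3 := this
  have hle : (k + 1) ^ r ≤ finrank ℚ (Z n) := by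
    have hbox := box_le w x hx hind k
    have hmono : ∀ m, k * W ≤ m → (k + 1) ^ r ≤ finrank ℚ (R m) := by
      intro m hm
      refine hbox.trans (Submodule.finrank_mono (R_mono ?_))
      calc k * ∑ i, w i ≤ k * W := Nat.mul_le_mul_left _ (by omega)
        _ ≤ m := hm
    rcases Nat.even_or_odd' n with ⟨m, hm | hm⟩
    · rw [hm, ← finrank_R]
      exact hmono m (by omega)
    · obtain ⟨j, rfl⟩ : ∃ j, m = j + 1 := ⟨m - 1, by omega⟩
      have e1 : n = 2 * j + 3 := by omega
      rw [e1, ← finrank_O]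
      exact (hmono j (by omega)).trans (Submodule.finrank_mono (R_le_O j))
  have hk1 : (n : ℝ) / (4 * W) ≤ k + 1 := by
    have h1 : n - 3 < (k + 1) * (2 * W) := by
      have := Nat.lt_div_mul_add (a := n - 3) (b := 2 * W) (by omega)
      calc n - 3 < (n - 3) / (2 * W) * (2 * W) + 2 * W := this
        _ = (k + 1) * (2 * W) := by ring
    have h2 : ((n - 3 : ℕ) : ℝ) < (k + 1) * (2 * W) := by exact_mod_cast h1
    rw [Nat.cast_sub (by omega)] at h2
    have h3 : (6:ℝ) ≤ n := by exact_mod_cast hn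
    rw [div_le_iff₀ (by positivity)]
    push_cast at h2
    nlinarith
  calc (1 / (4 * (W:ℝ))) ^ r * (n : ℝ) ^ r = ((n : ℝ) / (4 * W)) ^ r := by
        rw [← mul_pow]; congr 1; ring
    _ ≤ ((k:ℝ) + 1) ^ r := pow_le_pow_left₀ (by positivity) hk1 r
    _ = (((k + 1) ^ r : ℕ) : ℝ) := by push_cast; ring
    _ ≤ (finrank ℚ (Z n) : ℝ) := by exact_mod_cast hle

end Helper58.MZV
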