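import Mathlib

/-!
A local Tauberian theorem with a logarithmic error term, proved by Newman's contour method.
-/

set_option autoImplicit false

namespace Helper58.Liou

open Complex Filter Topology MeasureTheory Set Asymptotics

/-! ### pieces of the Mellin transform -/

/-- the part of `f` on `(1, X]` -/
noncomputable def fL (f : ℝ → ℂ) (X : ℝ) : ℝ → ℂ := indicator (Ioc 1 X) f
/-- the part of `f` on `(X, ∞)` -/
noncomputable def fR (f : ℝ → ℂ) (X : ℝ) : ℝ → ℂ := indicator (Ioi X) f

lemma fL_locInt {f : ℝ → ℂ} {X : ℝ} (hf : IntegrableOn f (Ioc 1 X)) :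
    LocallyIntegrableOn (fL f X) (Ioi 0) := by
  have : Integrable (fL f X) := (integrable_indicator_iff measurableSet_Ioc).mpr hf
  exact this.locallyIntegrable.locallyIntegrableOn _

lemma fL_top (f : ℝ → ℂ) (X a : ℝ) : fL f X =O[atTop] (fun x : ℝ => x ^ (-a)) := by
  apply IsBigO.of_bound 1
  filter_upwards [eventually_gt_atTop X, eventually_gt_atTop 0] with x hx h0
  have : x ∉ Ioc 1 X := fun h => absurd h.2 (not_le.mpr hx)
  rw [fL, indicator_of_notMem this]
  simp

lemma fL_bot (f : ℝ → ℂ) (X b : ℝ) : fL f X =O[𝓝[>] 0] (fun x : ℝ => x ^ (-b)) := by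
  apply IsBigO.of_bound 1
  have : ∀ᶠ x : ℝ in 𝓝[>] 0, x < 1 := by
    apply Filter.Eventually.filter_mono nhdsWithin_le_nhds
    exact gt_mem_nhds (by norm_num)
  filter_upwards [this] with x hx
  have : x ∉ Ioc 1 X := fun h => absurd h.1 (not_lt.mpr hx.le)
  rw [fL, indicator_of_notMem this]
  simp

lemma fL_mellin_diff {f : ℝ → ℂ} {X : ℝ} (hf : IntegrableOn f (Ioc 1 X)) (s : ℂ) :
    DifferentiableAt ℂ (mellin (fL f X)) s :=
  mellin_differentiableAt_of_isBigO_rpow (a := s.re + 1) (b := s.re - 1) (fL_locInt hf)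
    (fL_top f X _) (by linarith) (fL_bot f X _) (by linarith)

lemma fL_mellin_conv {f : ℝ → ℂ} {X : ℝ} (hf : IntegrableOn f (Ioc 1 X)) (s : ℂ) :
    MellinConvergent (fL f X) s :=
  mellinConvergent_of_isBigO_rpow (a := s.re + 1) (b := s.re - 1) (fL_locInt hf)
    (fL_top f X _) (by linarith) (fL_bot f X _) (by linarith)

/-- a kernel identity on the circle -/
lemma kernel_norm {R : ℝ} (hR : 0 < R) {w : ℂ} (hw : ‖w‖ = R) :
    ‖1 + (w / R)^2‖ = 2 * |w.re| / R := by
  have hR' : (R : ℂ) ≠ 0 := by exact_mod_cast hR.ne'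
  have e : 1 + (w / R)^2 = w * (2 * w.re) / R^2 := by
    have h1 : (R : ℂ)^2 = w * (starRingEnd ℂ) w := by
      rw [Complex.mul_conj, Complex.normSq_eq_norm_sq, hw]; push_cast; ring
    have h2 : (2 * w.re : ℂ) = w + (starRingEnd ℂ) w := by
      rw [Complex.add_conj]; push_cast; ring
    rw [h2, div_pow]
    field_simp
    rw [h1]
    ring
  rw [e, norm_div, norm_mul, hw, norm_pow, norm_mul]
  simp only [Complex.norm_real, Complex.norm_ofNat, Real.norm_eq_abs, abs_of_pos hR]
  field_simp

/-- bound for the truncated transform in the left half plane -/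
lemma fL_mellin_bound {f : ℝ → ℂ} {X S : ℝ} (hX : 1 ≤ X) (hS0 : 0 ≤ S)
    (hS : ∀ x ∈ Ioc 1 X, ‖f x‖ ≤ S) {w : ℂ} (hw : w.re < 0) :
    ‖mellin (fL f X) (-w)‖ ≤ S * (X ^ (-w.re) / (-w.re)) := by
  have hX0 : 0 < X := by linarith
  have e1 : mellin (fL f X) (-w) = ∫ t in Ioc 1 X, (t:ℂ)^(-w - 1) • f t := by
    rw [mellin]
    have : (fun t : ℝ => (t:ℂ)^(-w - 1) • fL f X t) = indicator (Ioc 1 X) (fun t : ℝ => (t:ℂ)^(-w - 1) • f t) := by
      ext t
      by_cases ht : t ∈ Ioc 1 X
      · simp [fL, ht]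
      · simp [fL, ht]
    rw [this, setIntegral_indicator measurableSet_Ioc]
    congr 2
    ext t
    simp only [mem_inter_iff, mem_Ioi, mem_Ioc]
    constructor
    · rintro ⟨_, h⟩; exact h
    · intro h; exact ⟨by linarith [h.1], h⟩
  rw [e1]
  have hint : IntegrableOn (fun t : ℝ => S * t ^ (-w.re - 1)) (Ioc 1 X) := by
    apply Integrable.const_mul
    have : ContinuousOn (fun t : ℝ => t ^ (-w.re - 1)) (Icc 1 X) := by
      intro t ht
      apply ContinuousAt.continuousWithinAt
      exact Real.continuousAt_rpow_const _ _ (Or.inl (by linarith [ht.1]))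
    exact (this.integrableOn_Icc).mono_set Ioc_subset_Icc_self
  calc ‖∫ t in Ioc 1 X, (t:ℂ)^(-w - 1) • f t‖ ≤ ∫ t in Ioc 1 X, S * t ^ (-w.re - 1) := by
        apply norm_integral_le_of_norm_le hint
        rw [ae_restrict_iff' measurableSet_Ioc]
        filter_upwards with t ht
        have ht0 : 0 < t := by linarith [ht.1]
        rw [norm_smul, Complex.norm_cpow_eq_rpow_re_of_pos ht0]
        have : (-w - 1).re = -w.re - 1 := by simp
        rw [this, mul_comm]
        exact mul_le_mul_of_nonneg_right (hS t ht) (by positivity)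
    _ = S * ((X ^ (-w.re) - 1) / (-w.re)) := by
        rw [integral_const_mul]
        congr 1
        rw [← intervalIntegral.integral_of_le hX, integral_rpow (Or.inl (by linarith))]
        simp
    _ ≤ S * (X ^ (-w.re) / (-w.re)) := by
        apply mul_le_mul_of_nonneg_left _ hS0
        apply div_le_div_of_nonneg_right _ (by linarith)
        linarith

/-- the truncated transform at `0` -/
lemma fL_mellin_zero {f : ℝ → ℂ} {X : ℝ} (hX : 1 ≤ X) :
    mellin (fL f X) 0 = ∫ t in (1:ℝ)..X, (t:ℂ)⁻¹ * f t := by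
  rw [mellin, intervalIntegral.integral_of_le hX]
  have : (fun t : ℝ => (t:ℂ)^((0:ℂ) - 1) • fL f X t) = indicator (Ioc 1 X) (fun t : ℝ => (t:ℂ)⁻¹ * f t) := by
    ext t
    by_cases ht : t ∈ Ioc 1 X
    · simp [fL, ht, Complex.cpow_neg_one]
    · simp [fL, ht]
  rw [this, setIntegral_indicator measurableSet_Ioc]
  congr 2
  ext t
  simp only [mem_inter_iff, mem_Ioi, mem_Ioc]
  constructor
  · rintro ⟨_, h⟩; exact h
  · intro h; exact ⟨by linarith [h.1], h⟩

/-- tail integrals of powers with a logarithm -/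
lemma tail_bound {f : ℝ → ℂ} {X ε : ℝ} (hX : 1 ≤ X) (hε : 0 ≤ ε)
    (hf : ∀ x, X < x → ‖f x‖ ≤ ε * Real.log x) {w : ℂ} (hw : 0 < w.re) :
    ‖mellin (fR f X) (-w)‖ ≤ ε * X ^ (-w.re) * (Real.log X / w.re + 4 / w.re^2) := by
  have hX0 : 0 < X := by linarith
  set σ := w.re with hσ
  have hlogX : 0 ≤ Real.log X := Real.log_nonneg hX
  -- the dominating function
  have hdom : ∀ t, X < t → ‖(t:ℂ)^(-w - 1) • f t‖ ≤
      (ε * Real.log X) * t ^ (-σ - 1) + (ε * (2/σ) * X ^ (-(σ/2))) * t ^ (-(σ/2) - 1) := by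
    intro t ht
    have ht0 : 0 < t := by linarith
    rw [norm_smul, Complex.norm_cpow_eq_rpow_re_of_pos ht0]
    have : (-w - 1).re = -σ - 1 := by simp [hσ]
    rw [this]
    have hlog : Real.log t ≤ Real.log X + (2/σ) * (t/X)^(σ/2) := by
      have h1 : Real.log t = Real.log X + Real.log (t/X) := by
        rw [Real.log_div ht0.ne' hX0.ne']; ring
      have h2 : Real.log (t/X) ≤ (t/X)^(σ/2) / (σ/2) :=
        Real.log_le_rpow_div (by positivity) (by positivity)
      rw [h1]
      have h3 : (t/X)^(σ/2) / (σ/2) = (2/σ) * (t/X)^(σ/2) := by field_simp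
      linarith
    calc t ^ (-σ - 1) * ‖f t‖ ≤ t ^ (-σ - 1) * (ε * (Real.log X + (2/σ) * (t/X)^(σ/2))) := by
          apply mul_le_mul_of_nonneg_left _ (by positivity)
          exact (hf t ht).trans (mul_le_mul_of_nonneg_left hlog hε)
      _ = (ε * Real.log X) * t ^ (-σ - 1) + ε * (2/σ) * (t ^ (-σ - 1) * (t/X)^(σ/2)) := by ring
      _ = _ := by
          have : t ^ (-σ - 1) * (t/X)^(σ/2) = X ^ (-(σ/2)) * t ^ (-(σ/2) - 1) := by
            rw [Real.div_rpow ht0.le hX0.le, Real.rpow_neg hX0.le]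
            have : t ^ (-(σ/2) - 1) = t ^ (-σ - 1) * t ^ (σ/2) := by
              rw [← Real.rpow_add ht0]; congr 1; ring
            rw [this]
            field_simp
          rw [this]; ring
  have i1 : IntegrableOn (fun t : ℝ => t ^ (-σ - 1)) (Ioi X) :=
    integrableOn_Ioi_rpow_of_lt (by linarith) hX0
  have i2 : IntegrableOn (fun t : ℝ => t ^ (-(σ/2) - 1)) (Ioi X) :=
    integrableOn_Ioi_rpow_of_lt (by linarith) hX0
  have e1 : mellin (fR f X) (-w) = ∫ t in Ioi X, (t:ℂ)^(-w - 1) • f t := by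
    rw [mellin]
    have : (fun t : ℝ => (t:ℂ)^(-w - 1) • fR f X t) = indicator (Ioi X) (fun t : ℝ => (t:ℂ)^(-w - 1) • f t) := by
      ext t
      by_cases ht : t ∈ Ioi X
      · simp only [fR, indicator_of_mem ht]
      · simp only [fR, indicator_of_notMem ht, smul_zero]
    rw [this, setIntegral_indicator measurableSet_Ioi]
    congr 2
    ext t
    simp only [mem_inter_iff, mem_Ioi]
    constructor
    · rintro ⟨_, h⟩; exact h
    · intro h; exact ⟨by linarith, h⟩
  rw [e1]
  calc ‖∫ t in Ioi X, (t:ℂ)^(-w - 1) • f t‖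
      ≤ ∫ t in Ioi X, ((ε * Real.log X) * t ^ (-σ - 1) + (ε * (2/σ) * X ^ (-(σ/2))) * t ^ (-(σ/2) - 1)) := by
        apply norm_integral_le_of_norm_le ((i1.const_mul _).add (i2.const_mul _))
        rw [ae_restrict_iff' measurableSet_Ioi]
        filter_upwards with t ht
        exact hdom t ht
    _ = (ε * Real.log X) * (X ^ (-σ) / σ) + (ε * (2/σ) * X ^ (-(σ/2))) * (X ^ (-(σ/2)) / (σ/2)) := by
        rw [integral_add (i1.const_mul _) (i2.const_mul _), integral_const_mul, integral_const_mul,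
          integral_Ioi_rpow_of_lt (by linarith) hX0, integral_Ioi_rpow_of_lt (by linarith) hX0]
        have a1 : -σ - 1 + 1 = -σ := by ring
        have a2 : -(σ/2) - 1 + 1 = -(σ/2) := by ring
        rw [a1, a2]
        have b1 : -X ^ (-σ) / -σ = X ^ (-σ) / σ := neg_div_neg_eq _ _
        have b2 : -X ^ (-(σ/2)) / -(σ/2) = X ^ (-(σ/2)) / (σ/2) := neg_div_neg_eq _ _
        rw [b1, b2]
    _ = ε * X ^ (-σ) * (Real.log X / σ + 4 / σ^2) := by
        have : X ^ (-σ) = X ^ (-(σ/2)) * X ^ (-(σ/2)) := by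
          rw [← Real.rpow_add hX0]; congr 1; ring
        rw [this]
        field_simp
        ring

lemma fR_locInt {f : ℝ → ℂ} {X : ℝ} (hX : 1 ≤ X) (hf : ∀ Y, IntegrableOn f (Ioc 1 Y)) :
    LocallyIntegrableOn (fR f X) (Ioi 0) := by
  have : LocallyIntegrable (fR f X) := by
    rw [locallyIntegrable_iff]
    intro K hK
    obtain ⟨b, hb⟩ := hK.bddAbove
    have h1 : IntegrableOn f (Ioi X ∩ K) := by
      apply (hf b).mono_set
      intro x hx
      exact ⟨lt_of_le_of_lt hX hx.1, hb hx.2⟩
    rw [fR, IntegrableOn, integrable_indicator_iff measurableSet_Ioi, IntegrableOn,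
      Measure.restrict_restrict measurableSet_Ioi]
    exact h1
  exact this.locallyIntegrableOn _

lemma fR_top {f : ℝ → ℂ} {X a : ℝ} (hfo : f =o[atTop] (fun x : ℝ => Real.log x)) (ha : a < 0) :
    fR f X =O[atTop] (fun x : ℝ => x ^ (-a)) := by
  have h1 : fR f X =ᶠ[atTop] f := by
    filter_upwards [eventually_gt_atTop X] with x hx
    exact indicator_of_mem hx f
  have h2 : (fun x : ℝ => Real.log x) =o[atTop] (fun x : ℝ => x ^ (-a)) :=
    isLittleO_log_rpow_atTop (by linarith)
  exact (h1.trans_isBigO hfo.isBigO).trans h2.isBigO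

lemma fR_bot (f : ℝ → ℂ) {X : ℝ} (hX : 1 ≤ X) (b : ℝ) : fR f X =O[𝓝[>] 0] (fun x : ℝ => x ^ (-b)) := by
  apply IsBigO.of_bound 1
  have : ∀ᶠ x : ℝ in 𝓝[>] 0, x < 1 := by
    apply Filter.Eventually.filter_mono nhdsWithin_le_nhds
    exact gt_mem_nhds (by norm_num)
  filter_upwards [this] with x hx
  have : x ∉ Ioi X := fun h => absurd (lt_of_le_of_lt hX h) (not_lt.mpr hx.le)
  rw [fR, indicator_of_notMem this]
  simp

lemma fR_mellin_conv {f : ℝ → ℂ} {X : ℝ} (hX : 1 ≤ X) (hf : ∀ Y, IntegrableOn f (Ioc 1 Y))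
    (hfo : f =o[atTop] (fun x : ℝ => Real.log x)) {w : ℂ} (hw : 0 < w.re) :
    MellinConvergent (fR f X) (-w) := by
  apply mellinConvergent_of_isBigO_rpow (a := -(w.re/2)) (b := (-w).re - 1) (fR_locInt hX hf)
    (fR_top hfo (by linarith)) _ (fR_bot f hX _) (by linarith)
  simp; linarith

lemma fR_mellin_diff {f : ℝ → ℂ} {X : ℝ} (hX : 1 ≤ X) (hf : ∀ Y, IntegrableOn f (Ioc 1 Y))
    (hfo : f =o[atTop] (fun x : ℝ => Real.log x)) {w : ℂ} (hw : 0 < w.re) :
    DifferentiableAt ℂ (mellin (fR f X)) (-w) := by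
  apply mellin_differentiableAt_of_isBigO_rpow (a := -(w.re/2)) (b := (-w).re - 1) (fR_locInt hX hf)
    (fR_top hfo (by linarith)) _ (fR_bot f hX _) (by linarith)
  simp; linarith

lemma mellin_split {f : ℝ → ℂ} {X : ℝ} (hX : 1 ≤ X) (hf : ∀ Y, IntegrableOn f (Ioc 1 Y))
    (hfo : f =o[atTop] (fun x : ℝ => Real.log x)) {w : ℂ} (hw : 0 < w.re) :
    mellin (fR f 1) (-w) = mellin (fL f X) (-w) + mellin (fR f X) (-w) := by
  have e : fR f 1 = fun t => fL f X t + fR f X t := by
    ext t
    by_cases h1 : t ∈ Ioi (1:ℝ)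
    · by_cases h2 : t ∈ Ioi X
      · have : t ∉ Ioc 1 X := fun h => absurd h.2 (not_le.mpr h2)
        simp only [fR, fL, indicator_of_mem h1, indicator_of_mem h2, indicator_of_notMem this, zero_add]
      · have : t ∈ Ioc 1 X := ⟨h1, not_lt.mp h2⟩
        simp only [fR, fL, indicator_of_mem h1, indicator_of_notMem h2, indicator_of_mem this, add_zero]
    · have h2 : t ∉ Ioi X := fun h => h1 (lt_of_le_of_lt hX h)
      have h3 : t ∉ Ioc 1 X := fun h => h1 h.1
      simp only [fR, fL, indicator_of_notMem h1, indicator_of_notMem h2, indicator_of_notMem h3, add_zero]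
  rw [e]
  have c1 := fL_mellin_conv (hf X) (-w)
  have c2 := fR_mellin_conv hX hf hfo hw
  rw [mellin, mellin, mellin, ← integral_add c1 c2]
  congr 1
  ext t
  rw [smul_add]

/-- **A local Tauberian theorem** (Newman's contour method). If `f(x) = o(log x)` and the
transform `∫_1^∞ f(x) x^{-z-1} dx` extends holomorphically to a neighbourhood of `z = 0`, then
`∫_1^X f(x) dx/x = o(log X)`. -/
theorem tauberian {f : ℝ → ℂ} (hf : ∀ X, IntegrableOn f (Ioc 1 X))
    (hbdd : ∀ X : ℝ, ∃ S : ℝ, 0 ≤ S ∧ ∀ x ∈ Ioc 1 X, ‖f x‖ ≤ S)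
    (hfo : f =o[atTop] (fun x : ℝ => Real.log x)) {g : ℂ → ℂ} {ρ : ℝ} (hρ : 0 < ρ)
    (hg : DifferentiableOn ℂ g (Metric.ball 0 ρ))
    (hgf : ∀ z ∈ Metric.ball (0:ℂ) ρ, 0 < z.re → g z = mellin (fR f 1) (-z)) :
    (fun X : ℝ => ∫ t in (1:ℝ)..X, (t:ℂ)⁻¹ * f t) =o[atTop] (fun x : ℝ => Real.log x) := by
  set R : ℝ := ρ/2 with hR
  have hR0 : 0 < R := by positivity
  have hsub : Metric.closedBall (0:ℂ) R ⊆ Metric.ball 0 ρ := Metric.closedBall_subset_ball (by rw [hR]; linarith)
  -- bound for g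
  obtain ⟨M, hM⟩ : ∃ M, ∀ z ∈ Metric.closedBall (0:ℂ) R, ‖g z‖ ≤ M :=
    (isCompact_closedBall (0:ℂ) R).exists_bound_of_continuousOn (hg.continuousOn.mono hsub)
  have hM0 : 0 ≤ M := le_trans (norm_nonneg _) (hM 0 (by simp [hR0.le]))
  rw [isLittleO_iff]
  intro c hc
  -- choose ε
  set ε : ℝ := c * R / 16 with hε
  have hε0 : 0 < ε := by positivity
  have h1 := hfo.def hε0
  rw [eventually_atTop] at h1
  obtain ⟨T0, hT0⟩ := h1
  set T := max T0 1 with hT
  have hT1 : 1 ≤ T := le_max_right _ _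
  obtain ⟨S, hS0, hS⟩ := hbdd T
  have hlogbd : ∀ x, T < x → ‖f x‖ ≤ ε * Real.log x := by
    intro x hx
    have := hT0 x (le_trans (le_max_left _ _) hx.le)
    rwa [Real.norm_of_nonneg (Real.log_nonneg (by linarith))] at this
  -- the constant part
  set C : ℝ := M + 4 * M + 16 * ε / R^2 + 4 * S / R with hC
  have hlogtop : Tendsto Real.log atTop atTop := Real.tendsto_log_atTop
  filter_upwards [eventually_ge_atTop T, hlogtop.eventually_ge_atTop (2 * C / c)] with X hX hXlog
  have hX1 : 1 ≤ X := hT1.trans hX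
  have hX0 : 0 < X := by linarith
  have hlogX : 0 ≤ Real.log X := Real.log_nonneg hX1
  rw [Real.norm_of_nonneg hlogX, ← fL_mellin_zero hX1]
  -- define Φ
  set Φ : ℂ → ℂ := fun w => (g w - mellin (fL f X) (-w)) * ((X:ℂ)^w * (1 + (w/R)^2)^2) with hΦ
  have hΦd : DifferentiableOn ℂ Φ (Metric.closedBall 0 R) := by
    apply DifferentiableOn.mul
    · apply DifferentiableOn.sub (hg.mono hsub)
      intro z _
      apply DifferentiableAt.differentiableWithinAt
      exact (fL_mellin_diff (hf X) (-z)).comp z (differentiableAt_id.neg)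
    · apply DifferentiableOn.mul
      · intro z _
        apply DifferentiableAt.differentiableWithinAt
        apply DifferentiableAt.const_cpow differentiableAt_id
        left
        exact_mod_cast hX0.ne'
      · fun_prop
  have hcauchy := hΦd.circleIntegral_sub_inv_smul (Metric.mem_ball_self hR0)
  have hΦ0 : Φ 0 = g 0 - mellin (fL f X) 0 := by
    simp [hΦ]
  -- pointwise bound on the circle
  have hbound : ∀ w ∈ Metric.sphere (0:ℂ) R, ‖(w - 0)⁻¹ • Φ w‖ ≤
      ε * (4 * Real.log X / R^2 + 16/R^3) + 4*M/R + 4 * (S + ε * Real.log X)/R^2 := by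
    intro w hw
    have hwR : ‖w‖ = R := by simpa using hw
    have hk := kernel_norm hR0 hwR
    have hwre : |w.re| ≤ R := hwR ▸ Complex.abs_re_le_norm w
    have hXw : ‖(X:ℂ)^w‖ = X ^ w.re := Complex.norm_cpow_eq_rpow_re_of_pos hX0 w
    have hval : ‖(w - 0)⁻¹ • Φ w‖ = ‖g w - mellin (fL f X) (-w)‖ * (X ^ w.re * (4 * w.re^2 / R^3)) := by
      rw [sub_zero, norm_smul, norm_inv, hwR, hΦ]
      simp only [norm_mul, norm_pow, hXw, hk]
      rw [div_pow, mul_pow, sq_abs]
      field_simp
      ring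
    rw [hval]
    rcases lt_trichotomy w.re 0 with hneg | hzero | hpos
    · -- left half
      have hSX : ∀ x ∈ Ioc 1 X, ‖f x‖ ≤ S + ε * Real.log X := by
        intro x hx
        rcases le_or_gt x T with h | h
        · have := hS x ⟨hx.1, h⟩
          have : 0 ≤ ε * Real.log X := by positivity
          linarith
        · have h2 := hlogbd x h
          have h3 : Real.log x ≤ Real.log X := Real.log_le_log (by linarith [hx.1]) hx.2
          have h4 : ε * Real.log x ≤ ε * Real.log X := mul_le_mul_of_nonneg_left h3 hε0.le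
          linarith
      have hb := fL_mellin_bound hX1 (by positivity : 0 ≤ S + ε * Real.log X) hSX hneg
      have hgw := hM w (by simp [hwR])
      have hXpow : X ^ w.re ≤ 1 := Real.rpow_le_one_of_one_le_of_nonpos hX1 hneg.le
      have hXpow0 : 0 < X ^ w.re := by positivity
      have hre2 : w.re^2 ≤ R^2 := by
        rw [← sq_abs]; exact pow_le_pow_left₀ (abs_nonneg _) hwre 2
      have hK0 : 0 ≤ X ^ w.re * (4 * w.re^2 / R^3) := by positivity
      have hneg' : 0 < -w.re := by linarith
      calc ‖g w - mellin (fL f X) (-w)‖ * (X ^ w.re * (4 * w.re^2 / R^3))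
          ≤ (M + (S + ε * Real.log X) * (X ^ (-w.re) / (-w.re))) * (X ^ w.re * (4 * w.re^2 / R^3)) := by
            apply mul_le_mul_of_nonneg_right _ hK0
            exact (norm_sub_le _ _).trans (add_le_add hgw hb)
        _ = M * (X ^ w.re * (4 * w.re^2 / R^3)) + (S + ε * Real.log X) * (4 * (-w.re) / R^3) := by
            have e1 : X ^ (-w.re) * X ^ w.re = 1 := by
              rw [← Real.rpow_add hX0]; simp
            have e2 : (S + ε * Real.log X) * (X ^ (-w.re) / (-w.re)) * (X ^ w.re * (4 * w.re^2 / R^3))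
              = (S + ε * Real.log X) * (X ^ (-w.re) * X ^ w.re) * (4 * (w.re^2 / (-w.re)) / R^3) := by
              field_simp
            have e3 : w.re^2 / (-w.re) = -w.re := by field_simp
            rw [add_mul, e2, e1, e3]; ring
        _ ≤ M * (4 / R) + (S + ε * Real.log X) * (4 / R^2) := by
            apply add_le_add
            · apply mul_le_mul_of_nonneg_left _ hM0
              calc X ^ w.re * (4 * w.re^2 / R^3) ≤ 1 * (4 * R^2 / R^3) := by
                    apply mul_le_mul hXpow _ (by positivity) (by norm_num)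
                    apply div_le_div_of_nonneg_right _ (by positivity)
                    linarith
                _ = 4 / R := by field_simp
            · apply mul_le_mul_of_nonneg_left _ (by positivity)
              have h5 : -w.re ≤ R := by
                have := abs_of_neg hneg
                linarith
              calc 4 * (-w.re) / R^3 ≤ 4 * R / R^3 := by
                    apply div_le_div_of_nonneg_right _ (by positivity)
                    linarith
                _ = 4 / R^2 := by field_simp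
        _ ≤ _ := by
            have h6 : 0 ≤ ε * (4 * Real.log X / R^2 + 16/R^3) := by positivity
            have h7 : M * (4 / R) = 4 * M / R := by ring
            have h8 : (S + ε * Real.log X) * (4 / R^2) = 4 * (S + ε * Real.log X)/R^2 := by ring
            linarith
    · rw [hzero]
      have : 0 ≤ ε * (4 * Real.log X / R^2 + 16/R^3) + 4*M/R + 4 * (S + ε * Real.log X)/R^2 := by positivity
      simpa using this
    · -- right half
      have hmem : w ∈ Metric.ball (0:ℂ) ρ := hsub (by simp [hwR])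
      have e1 : g w - mellin (fL f X) (-w) = mellin (fR f X) (-w) := by
        rw [hgf w hmem hpos, mellin_split hX1 hf hfo hpos]; ring
      rw [e1]
      have hb := tail_bound hX1 hε0.le (fun x hx => hlogbd x (lt_of_le_of_lt hX hx)) hpos
      have hre : w.re ≤ R := (le_abs_self _).trans hwre
      calc ‖mellin (fR f X) (-w)‖ * (X ^ w.re * (4 * w.re^2 / R^3))
          ≤ (ε * X ^ (-w.re) * (Real.log X / w.re + 4 / w.re^2)) * (X ^ w.re * (4 * w.re^2 / R^3)) :=
            mul_le_mul_of_nonneg_right hb (by positivity)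
        _ = ε * (4 * Real.log X * w.re / R^3 + 16 / R^3) := by
            have e3 : X ^ (-w.re) * X ^ w.re = 1 := by
              rw [← Real.rpow_add hX0]; simp
            have e4 : (ε * X ^ (-w.re) * (Real.log X / w.re + 4 / w.re^2)) * (X ^ w.re * (4 * w.re^2 / R^3))
              = ε * (X ^ (-w.re) * X ^ w.re) * ((Real.log X / w.re + 4 / w.re^2) * (4 * w.re^2 / R^3)) := by ring
            rw [e4, e3]
            field_simp
            ring
        _ ≤ ε * (4 * Real.log X / R^2 + 16/R^3) := by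
            apply mul_le_mul_of_nonneg_left _ hε0.le
            have : 4 * Real.log X * w.re / R^3 ≤ 4 * Real.log X / R^2 := by
              calc 4 * Real.log X * w.re / R^3 ≤ 4 * Real.log X * R / R^3 := by
                    apply div_le_div_of_nonneg_right _ (by positivity)
                    apply mul_le_mul_of_nonneg_left hre (by positivity)
                _ = 4 * Real.log X / R^2 := by field_simp
            linarith
        _ ≤ _ := by
            have : 0 ≤ 4*M/R + 4 * (S + ε * Real.log X)/R^2 := by positivity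
            linarith
  have hcircle := circleIntegral.norm_integral_le_of_norm_le_const hR0.le hbound
  rw [hcauchy, norm_smul] at hcircle
  have h2pi : ‖(2 * (Real.pi:ℂ) * I)‖ = 2 * Real.pi := by
    simp [abs_of_pos Real.pi_pos]
  rw [h2pi, hΦ0] at hcircle
  have hpi := Real.pi_pos
  have h9 : ‖g 0 - mellin (fL f X) 0‖ ≤ R * (ε * (4 * Real.log X / R^2 + 16/R^3) + 4*M/R + 4 * (S + ε * Real.log X)/R^2) := by
    have : 2 * Real.pi * ‖g 0 - mellin (fL f X) 0‖ ≤ 2 * Real.pi * (R * (ε * (4 * Real.log X / R^2 + 16/R^3) + 4*M/R + 4 * (S + ε * Real.log X)/R^2)) := by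
      calc _ ≤ _ := hcircle
        _ = _ := by ring
    exact le_of_mul_le_mul_left this (by positivity)
  have h10 : ‖mellin (fL f X) 0‖ ≤ ‖g 0‖ + ‖g 0 - mellin (fL f X) 0‖ := by
    have : mellin (fL f X) 0 = g 0 - (g 0 - mellin (fL f X) 0) := by ring
    conv_lhs => rw [this]
    exact norm_sub_le _ _
  have h11 := hM 0 (by simp [hR0.le])
  have h12 : R * (ε * (4 * Real.log X / R^2 + 16/R^3) + 4*M/R + 4 * (S + ε * Real.log X)/R^2)
      = 8 * ε / R * Real.log X + (4 * M + 16 * ε / R^2 + 4 * S / R) := by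
    field_simp
    ring
  have h13 : 8 * ε / R = c / 2 := by
    rw [hε]; field_simp; norm_num
  rw [h12, h13] at h9
  have h14 : C ≤ c/2 * Real.log X := by
    rw [div_le_iff₀ hc] at hXlog
    linarith
  calc ‖mellin (fL f X) 0‖ ≤ M + (c / 2 * Real.log X + (4 * M + 16 * ε / R^2 + 4 * S / R)) := by linarith
    _ = C + c/2 * Real.log X := by rw [hC]; ring
    _ ≤ c * Real.log X := by linarith

end Helper58.Liou
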