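import Mathlib
import Pool.Agent.Lib.Helper58.NewmanLog

/-!
The Dirichlet series of the Liouville function, the non-vanishing of zeta on (0,1), and the mean value of the
normalised summatory function of the Liouville function under the bound o(sqrt x log x).
-/

set_option autoImplicit false

namespace Helper58.Liou

open Complex Filter Topology MeasureTheory Set Asymptotics

/-- the completely multiplicative function `λ(n) n^{-s}` -/
noncomputable def liouvilleHom {s : ℂ} (hs : s ≠ 0) : ℕ →*₀ ℂ where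
  toFun n := (ArithmeticFunction.liouville n : ℂ) * (n : ℂ) ^ (-s)
  map_zero' := by simp [hs]
  map_one' := by simp [ArithmeticFunction.liouville_apply_one]
  map_mul' m n := by
    rw [ArithmeticFunction.liouville_apply_mul]
    have : ((m * n : ℕ) : ℂ) ^ (-s) = (m : ℂ) ^ (-s) * (n : ℂ) ^ (-s) := by
      simpa only [Nat.cast_mul, ofReal_natCast]
        using mul_cpow_ofReal_nonneg m.cast_nonneg n.cast_nonneg (-s)
    rw [this]
    push_cast
    ring

lemma norm_liouville_le (n : ℕ) : ‖(ArithmeticFunction.liouville n : ℂ)‖ ≤ 1 := by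
  rcases eq_or_ne n 0 with h | h
  · simp [h]
  · rw [ArithmeticFunction.liouville_apply h]
    simp

lemma summable_liouvilleHom {s : ℂ} (hs : 1 < s.re) :
    Summable (fun n ↦ ‖liouvilleHom (ne_zero_of_one_lt_re hs) n‖) := by
  refine (summable_riemannZetaSummand hs).of_nonneg_of_le (fun _ ↦ norm_nonneg _) (fun n ↦ ?_)
  simp only [liouvilleHom, riemannZetaSummandHom, MonoidWithZeroHom.coe_mk, ZeroHom.coe_mk, norm_mul]
  exact mul_le_of_le_one_left (norm_nonneg _) (norm_liouville_le n)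

lemma tsum_liouvilleHom {s : ℂ} (hs : 1 < s.re) :
    ∑' (n : ℕ), liouvilleHom (ne_zero_of_one_lt_re hs) n
      = LSeries (fun n => (ArithmeticFunction.liouville n : ℂ)) s := by
  simp only [liouvilleHom, cpow_neg, MonoidWithZeroHom.coe_mk, ZeroHom.coe_mk, LSeries,
    LSeries.term_of_ne_zero' (ne_zero_of_one_lt_re hs), div_eq_mul_inv]

lemma liouville_LSeries {s : ℂ} (hs : 1 < s.re) :
    LSeries (fun n => (ArithmeticFunction.liouville n : ℂ)) s * riemannZeta s = riemannZeta (2 * s) := by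
  have h1 := EulerProduct.eulerProduct_completely_multiplicative_hasProd (summable_liouvilleHom hs)
  rw [tsum_liouvilleHom hs] at h1
  have h2 := riemannZeta_eulerProduct_hasProd hs
  have hs2 : 1 < (2 * s).re := by
    simp only [mul_re, re_ofNat, im_ofNat, zero_mul, sub_zero]; linarith
  have h3 := riemannZeta_eulerProduct_hasProd hs2
  refine (h1.mul h2).unique ?_
  convert! h3 using 1
  ext p
  have hp : ((p : ℕ) : ℂ) ≠ 0 := by exact_mod_cast p.2.ne_zero
  have e1 : liouvilleHom (ne_zero_of_one_lt_re hs) (p : ℕ) = - ((p : ℕ) : ℂ) ^ (-s) := by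
    simp only [liouvilleHom, MonoidWithZeroHom.coe_mk, ZeroHom.coe_mk]
    rw [ArithmeticFunction.liouville_apply p.2.ne_zero, ArithmeticFunction.cardFactors_apply_prime p.2]
    simp
  rw [e1, ← mul_inv]
  have e2 : ((p : ℕ) : ℂ) ^ (-(2 * s)) = ((p : ℕ) : ℂ) ^ (-s) * ((p : ℕ) : ℂ) ^ (-s) := by
    rw [← cpow_add _ _ hp]; congr 1; ring
  rw [e2]
  congr 1
  ring

/-- the summatory function of the Liouville function (complex valued) -/
noncomputable def SL (t : ℝ) : ℂ := ∑ k ∈ Finset.Icc 1 ⌊t⌋₊, (ArithmeticFunction.liouville k : ℂ)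

lemma liouville_LSeries_integral {s : ℂ} (hs : 1 < s.re) :
    LSeries (fun n => (ArithmeticFunction.liouville n : ℂ)) s
      = s * ∫ t in Set.Ioi (1 : ℝ), SL t * (t:ℂ) ^ (-(s + 1)) := by
  apply LSeries_eq_mul_integral' _ zero_le_one hs
  apply IsBigO.of_bound 1
  filter_upwards with n
  rw [Real.rpow_one, one_mul, Real.norm_of_nonneg (Finset.sum_nonneg fun _ _ => norm_nonneg _),
    Real.norm_of_nonneg (Nat.cast_nonneg n)]
  calc ∑ k ∈ Finset.Icc 1 n, ‖(ArithmeticFunction.liouville k : ℂ)‖ ≤ ∑ k ∈ Finset.Icc 1 n, (1:ℝ) :=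
        Finset.sum_le_sum fun k _ => norm_liouville_le k
    _ = n := by simp

lemma zeta_integral {s : ℂ} (hs : 1 < s.re) :
    riemannZeta s = s * ∫ t in Set.Ioi (1 : ℝ), (⌊t⌋₊ : ℂ) * (t:ℂ) ^ (-(s + 1)) := by
  have h := LSeries_eq_mul_integral' (fun _ => (1:ℂ)) zero_le_one hs (by
    apply IsBigO.of_bound 1
    filter_upwards with n
    simp)
  rw [← LSeries_one_eq_riemannZeta hs]
  simpa using! h

/-- the integral of the fractional part -/
noncomputable def FrI (s : ℂ) : ℂ := mellin (fR (fun t => ((Int.fract t : ℝ) : ℂ)) 1) (-s)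

lemma fract_integrableOn (Y : ℝ) : IntegrableOn (fun t : ℝ => ((Int.fract t : ℝ) : ℂ)) (Ioc 1 Y) := by
  apply Measure.integrableOn_of_bounded (M := 1)
  · simp
  · apply Measurable.aestronglyMeasurable
    exact Complex.measurable_ofReal.comp measurable_fract
  · filter_upwards with t
    rw [Complex.norm_real, Real.norm_of_nonneg (Int.fract_nonneg t)]
    exact (Int.fract_lt_one t).le

lemma fract_isLittleO : (fun t : ℝ => ((Int.fract t : ℝ) : ℂ)) =o[atTop] (fun x : ℝ => Real.log x) := by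
  have h1 : (fun t : ℝ => ((Int.fract t : ℝ) : ℂ)) =O[atTop] (fun _ : ℝ => (1:ℝ)) := by
    apply IsBigO.of_bound 1
    filter_upwards with t
    rw [Complex.norm_real, Real.norm_of_nonneg (Int.fract_nonneg t)]
    simpa using (Int.fract_lt_one t).le
  exact h1.trans_isLittleO (Real.isLittleO_const_log_atTop)

lemma FrI_diff {s : ℂ} (hs : 0 < s.re) : DifferentiableAt ℂ FrI s := by
  have := fR_mellin_diff le_rfl fract_integrableOn fract_isLittleO hs
  exact this.comp s (differentiableAt_id.neg)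

lemma mellin_fR_eq {f : ℝ → ℂ} (s : ℂ) : mellin (fR f 1) (-s) = ∫ t in Ioi (1:ℝ), f t * (t:ℂ)^(-(s+1)) := by
  rw [mellin]
  have : (fun t : ℝ => (t:ℂ)^(-s - 1) • fR f 1 t) = indicator (Ioi 1) (fun t : ℝ => f t * (t:ℂ)^(-(s+1))) := by
    ext t
    by_cases ht : t ∈ Ioi (1:ℝ)
    · simp only [fR, indicator_of_mem ht, smul_eq_mul]
      rw [mul_comm]; congr 2; ring
    · simp only [fR, indicator_of_notMem ht, smul_zero]
  rw [this, setIntegral_indicator measurableSet_Ioi]
  congr 2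
  ext t
  simp only [mem_inter_iff, mem_Ioi]
  constructor
  · rintro ⟨_, h⟩; exact h
  · intro h; exact ⟨by linarith, h⟩

lemma mellin_fR_conv_iff {f : ℝ → ℂ} (s : ℂ) : MellinConvergent (fR f 1) (-s) ↔
    IntegrableOn (fun t : ℝ => f t * (t:ℂ)^(-(s+1))) (Ioi (1:ℝ)) := by
  rw [MellinConvergent]
  have : (fun t : ℝ => (t:ℂ)^(-s - 1) • fR f 1 t) = indicator (Ioi 1) (fun t : ℝ => f t * (t:ℂ)^(-(s+1))) := by
    ext t
    by_cases ht : t ∈ Ioi (1:ℝ)
    · simp only [fR, indicator_of_mem ht, smul_eq_mul]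
      rw [mul_comm]; congr 2; ring
    · simp only [fR, indicator_of_notMem ht, smul_zero]
  rw [this, IntegrableOn, integrable_indicator_iff measurableSet_Ioi, IntegrableOn,
      Measure.restrict_restrict measurableSet_Ioi]
  have : Ioi (1:ℝ) ∩ Ioi 0 = Ioi 1 := by
    ext t
    simp only [mem_inter_iff, mem_Ioi]
    constructor
    · rintro ⟨h, _⟩; exact h
    · intro h; exact ⟨h, by linarith⟩
  rw [this, IntegrableOn]

lemma integral_pow_one {s : ℂ} (hs : 0 < s.re) : ∫ t in Ioi (1:ℝ), (t:ℂ)^(-(s+1)) = 1/s := by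
  rw [integral_Ioi_cpow_of_lt (by simp; linarith) one_pos]
  simp only [ofReal_one, one_cpow]
  have : s ≠ 0 := fun h => by simp [h] at hs
  have : -(s+1)+1 = -s := by ring
  rw [this]
  field_simp

lemma integrable_pow_one {s : ℂ} (hs : 0 < s.re) : IntegrableOn (fun t : ℝ => (t:ℂ)^(-(s+1))) (Ioi (1:ℝ)) :=
  integrableOn_Ioi_cpow_of_lt (by simp; linarith) one_pos

/-- `(s-1) ζ(s) = s - s (s-1) ∫_1^∞ {t} t^{-s-1} dt` for `Re s > 1` -/
lemma zeta_fract_of_one_lt {s : ℂ} (hs : 1 < s.re) :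
    riemannZeta₁ s = s - s * (s - 1) * FrI s := by
  have hs1 : s - 1 ≠ 0 := by
    intro h
    have : s = 1 := by linear_combination h
    rw [this] at hs; simp at hs
  have hs0 : s ≠ 0 := fun h => by simp [h] at hs; linarith
  have e0 : riemannZeta₁ s = (s - 1) * riemannZeta s := by
    rw [riemannZeta_eq_inv_sub_mul]
    · field_simp
    · intro h; exact hs1 (by rw [h]; ring)
  rw [e0, zeta_integral hs, FrI, mellin_fR_eq]
  have e1 : ∀ t ∈ Ioi (1:ℝ), (⌊t⌋₊ : ℂ) * (t:ℂ) ^ (-(s + 1)) =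
      (t:ℂ)^(-((s-1)+1)) - ((Int.fract t : ℝ) : ℂ) * (t:ℂ)^(-(s+1)) := by
    intro t ht
    have ht0 : (0:ℝ) < t := lt_trans one_pos ht
    have ht0' : (t:ℂ) ≠ 0 := by exact_mod_cast ht0.ne'
    have h1 : (t:ℂ)^(-((s-1)+1)) = t * (t:ℂ)^(-(s+1)) := by
      have : -((s-1)+1) = 1 + (-(s+1)) := by ring
      rw [this, cpow_add _ _ ht0', cpow_one]
    have h2 : (⌊t⌋₊ : ℂ) = (t:ℂ) - ((Int.fract t : ℝ) : ℂ) := by
      have : (⌊t⌋₊ : ℝ) = t - Int.fract t := by
        rw [natCast_floor_eq_intCast_floor ht0.le, Int.fract]; ring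
      exact_mod_cast this
    rw [h1, h2]; ring
  rw [setIntegral_congr_fun measurableSet_Ioi e1]
  have i1 : IntegrableOn (fun t : ℝ => (t:ℂ)^(-((s-1)+1))) (Ioi (1:ℝ)) :=
    integrable_pow_one (by simp; linarith)
  have i2 : IntegrableOn (fun t : ℝ => ((Int.fract t : ℝ) : ℂ) * (t:ℂ)^(-(s+1))) (Ioi (1:ℝ)) :=
    (mellin_fR_conv_iff s).mp (fR_mellin_conv le_rfl fract_integrableOn fract_isLittleO (by linarith))
  rw [integral_sub i1 i2, integral_pow_one (by simp; linarith)]
  field_simp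

/-- `(s-1) ζ(s) = s - s (s-1) ∫_1^∞ {t} t^{-s-1} dt` for `Re s > 0` -/
lemma zeta_fract {s : ℂ} (hs : 0 < s.re) :
    riemannZeta₁ s = s - s * (s - 1) * FrI s := by
  have hU : IsOpen {s : ℂ | 0 < s.re} := isOpen_lt continuous_const continuous_re
  have hconv : Convex ℝ {s : ℂ | 0 < s.re} := by
    have := convex_halfSpace_gt (𝕜 := ℝ) (f := fun z : ℂ => z.re) ⟨fun _ _ => add_re _ _, fun _ _ => by simp⟩ 0
    simpa using this
  have h1 : AnalyticOnNhd ℂ riemannZeta₁ {s : ℂ | 0 < s.re} :=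
    (differentiable_riemannZeta₁.differentiableOn).analyticOnNhd hU
  have h2 : AnalyticOnNhd ℂ (fun s => s - s * (s - 1) * FrI s) {s : ℂ | 0 < s.re} := by
    apply DifferentiableOn.analyticOnNhd _ hU
    intro z hz
    apply DifferentiableAt.differentiableWithinAt
    have := FrI_diff hz
    fun_prop
  have h3 : riemannZeta₁ =ᶠ[𝓝 (2:ℂ)] (fun s => s - s * (s - 1) * FrI s) := by
    have : {s : ℂ | 1 < s.re} ∈ 𝓝 (2:ℂ) := (isOpen_lt continuous_const continuous_re).mem_nhds (by simp)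
    filter_upwards [this] with z hz
    exact zeta_fract_of_one_lt hz
  exact h1.eqOn_of_preconnected_of_eventuallyEq h2 hconv.isPreconnected (by simp : (2:ℂ) ∈ {s : ℂ | 0 < s.re}) h3 hs

/-- `riemannZeta₁` does not vanish on `(0,1)`; it is positive there -/
lemma zeta₁_pos {σ : ℝ} (h0 : 0 < σ) (h1 : σ ≤ 1) : ∃ r : ℝ, 0 < r ∧ riemannZeta₁ (σ:ℂ) = (r:ℂ) := by
  rw [zeta_fract (by simpa using h0)]
  have : FrI (σ:ℂ) = ((∫ t in Ioi (1:ℝ), Int.fract t * t^(-(σ+1)) : ℝ) : ℂ) := by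
    rw [FrI, mellin_fR_eq, ← integral_complex_ofReal]
    apply setIntegral_congr_fun measurableSet_Ioi
    intro t ht
    have ht0 : (0:ℝ) < t := lt_trans one_pos ht
    simp only
    rw [ofReal_mul, ofReal_cpow ht0.le]
    push_cast
    ring
  rw [this]
  set J := ∫ t in Ioi (1:ℝ), Int.fract t * t^(-(σ+1))
  have hJ : 0 ≤ J := by
    apply setIntegral_nonneg measurableSet_Ioi
    intro t ht
    have ht0 : (0:ℝ) < t := lt_trans one_pos ht
    have := Int.fract_nonneg t
    positivity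
  refine ⟨σ - σ * (σ - 1) * J, ?_, by push_cast; ring⟩
  have : 0 ≤ σ * (1 - σ) * J := by
    have : 0 ≤ 1 - σ := by linarith
    positivity
  nlinarith

lemma zeta_ne_zero_of_Ioo {σ : ℝ} (h0 : 0 < σ) (h1 : σ < 1) : riemannZeta (σ:ℂ) ≠ 0 := by
  obtain ⟨r, hr, h⟩ := zeta₁_pos h0 h1.le
  have hs1 : (σ:ℂ) ≠ 1 := by
    intro h; rw [← ofReal_one, ofReal_inj] at h; linarith
  rw [riemannZeta_eq_inv_sub_mul hs1, h]
  apply mul_ne_zero
  · exact inv_ne_zero (sub_ne_zero.mpr hs1)
  · exact_mod_cast hr.ne'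

lemma zeta_half_ne_zero : riemannZeta (1/2) ≠ 0 := by
  have := zeta_ne_zero_of_Ioo (σ := 1/2) (by norm_num) (by norm_num)
  simpa using this

/-- the normalised summatory function `t^{-1/2} L(t)` -/
noncomputable def hL (t : ℝ) : ℂ := ((t ^ (-(1/2) : ℝ) : ℝ) : ℂ) * SL t

lemma norm_SL_le (t : ℝ) (ht : 0 ≤ t) : ‖SL t‖ ≤ t := by
  rw [SL]
  calc ‖∑ k ∈ Finset.Icc 1 ⌊t⌋₊, (ArithmeticFunction.liouville k : ℂ)‖
      ≤ ∑ k ∈ Finset.Icc 1 ⌊t⌋₊, ‖(ArithmeticFunction.liouville k : ℂ)‖ := norm_sum_le _ _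
    _ ≤ ∑ k ∈ Finset.Icc 1 ⌊t⌋₊, (1:ℝ) := Finset.sum_le_sum fun k _ => norm_liouville_le k
    _ = ⌊t⌋₊ := by simp
    _ ≤ t := Nat.floor_le ht

lemma SL_meas : Measurable SL := by
  have : SL = (fun n : ℕ => ∑ k ∈ Finset.Icc 1 n, (ArithmeticFunction.liouville k : ℂ)) ∘ (fun t : ℝ => ⌊t⌋₊) := rfl
  rw [this]
  exact (measurable_from_nat).comp Nat.measurable_floor

lemma hL_meas : Measurable hL := by
  unfold hL
  apply Measurable.mul _ SL_meas
  apply Complex.measurable_ofReal.comp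
  exact Measurable.pow_const measurable_id _

lemma norm_hL_le {X t : ℝ} (ht : t ∈ Ioc 1 X) : ‖hL t‖ ≤ X := by
  have ht0 : 0 ≤ t := by linarith [ht.1]
  rw [hL, norm_mul, Complex.norm_real, Real.norm_of_nonneg (by positivity)]
  have h1 : t ^ (-(1/2) : ℝ) ≤ 1 := Real.rpow_le_one_of_one_le_of_nonpos ht.1.le (by norm_num)
  calc t ^ (-(1/2) : ℝ) * ‖SL t‖ ≤ 1 * t := mul_le_mul h1 (norm_SL_le t ht0) (norm_nonneg _) zero_le_one
    _ = t := one_mul _
    _ ≤ X := ht.2

lemma integrableOn_of_bdd {f : ℝ → ℂ} (hm : Measurable f) {X M : ℝ} (hb : ∀ t ∈ Ioc 1 X, ‖f t‖ ≤ M) :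
    IntegrableOn f (Ioc 1 X) := by
  apply Measure.integrableOn_of_bounded (M := M)
  · simp
  · exact hm.aestronglyMeasurable
  · rw [ae_restrict_iff' measurableSet_Ioc]
    exact Filter.Eventually.of_forall hb

lemma hL_integrableOn (X : ℝ) : IntegrableOn hL (Ioc 1 X) :=
  integrableOn_of_bdd hL_meas (fun _ ht => norm_hL_le ht)

/-- the transform of `hL` for `Re z > 1/2` -/
lemma J_of_half_lt {z : ℂ} (hz : 1/2 < z.re) :
    (z + 1/2) * mellin (fR hL 1) (-z) * riemannZeta₁ (z + 1/2) * (2 * z) = (z - 1/2) * riemannZeta₁ (2 * z + 1) := by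
  have hs : 1 < (z + 1/2).re := by
    have : (z + 1/2).re = z.re + 1/2 := by simp
    rw [this]; linarith
  have h1 := liouville_LSeries hs
  rw [liouville_LSeries_integral hs] at h1
  have e1 : ∫ t in Ioi (1:ℝ), SL t * (t:ℂ)^(-(z + 1/2 + 1)) = mellin (fR hL 1) (-z) := by
    rw [mellin_fR_eq]
    apply setIntegral_congr_fun measurableSet_Ioi
    intro t ht
    have ht0 : (0:ℝ) < t := lt_trans one_pos ht
    have ht0' : (t:ℂ) ≠ 0 := by exact_mod_cast ht0.ne'
    simp only [hL]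
    have : (t:ℂ)^(-(z + 1/2 + 1)) = ((t ^ (-(1/2) : ℝ) : ℝ) : ℂ) * (t:ℂ)^(-(z + 1)) := by
      rw [ofReal_cpow ht0.le, ← cpow_add _ _ ht0']
      congr 1
      push_cast
      ring
    rw [this]; ring
  rw [e1] at h1
  have hz0 : z ≠ 0 := fun h => by simp [h] at hz; linarith
  have hz1 : z - 1/2 ≠ 0 := by
    intro h
    have : z = 1/2 := by linear_combination h
    rw [this] at hz; simp at hz
  have e2 : riemannZeta (z + 1/2) = (z - 1/2)⁻¹ * riemannZeta₁ (z + 1/2) := by
    rw [riemannZeta_eq_inv_sub_mul]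
    · congr 2; ring
    · intro h; apply hz1; linear_combination h
  have e3 : riemannZeta (2 * (z + 1/2)) = (2 * z)⁻¹ * riemannZeta₁ (2 * z + 1) := by
    have : 2 * (z + 1/2) = 2 * z + 1 := by ring
    rw [this, riemannZeta_eq_inv_sub_mul]
    · congr 2; ring
    · intro h; apply hz0; linear_combination h/2
  rw [e2, e3] at h1
  generalize riemannZeta₁ (z + 1/2) = A at *
  generalize riemannZeta₁ (2 * z + 1) = B at *
  generalize mellin (fR hL 1) (-z) = M at *
  have h2 : (z - 1/2) * (z - 1/2)⁻¹ = 1 := mul_inv_cancel₀ hz1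
  have h3 : (2 * z) * (2 * z)⁻¹ = 1 := mul_inv_cancel₀ (mul_ne_zero two_ne_zero hz0)
  calc (z + 1/2) * M * A * (2 * z) = ((z + 1/2) * M * ((z - 1/2)⁻¹ * A)) * ((z - 1/2) * (2 * z)) := by
        linear_combination (-(z + 1/2) * M * A * (2 * z)) * h2
    _ = ((2 * z)⁻¹ * B) * ((z - 1/2) * (2 * z)) := by rw [h1]
    _ = (z - 1/2) * B := by linear_combination ((z - 1/2) * B) * h3

/-- the transform of `hL` for `Re z > 0`, under `L(x) = o(√x log x)` -/
lemma J_of_pos (hlo : hL =o[atTop] (fun x : ℝ => Real.log x)) {z : ℂ} (hz : 0 < z.re) :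
    (z + 1/2) * mellin (fR hL 1) (-z) * riemannZeta₁ (z + 1/2) * (2 * z) = (z - 1/2) * riemannZeta₁ (2 * z + 1) := by
  have hU : IsOpen {s : ℂ | 0 < s.re} := isOpen_lt continuous_const continuous_re
  have hconv : Convex ℝ {s : ℂ | 0 < s.re} := by
    have := convex_halfSpace_gt (𝕜 := ℝ) (f := fun z : ℂ => z.re) ⟨fun _ _ => add_re _ _, fun _ _ => by simp⟩ 0
    simpa using this
  have hZ : Differentiable ℂ riemannZeta₁ := differentiable_riemannZeta₁
  have h1 : AnalyticOnNhd ℂ (fun z => (z + 1/2) * mellin (fR hL 1) (-z) * riemannZeta₁ (z + 1/2) * (2 * z))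
      {s : ℂ | 0 < s.re} := by
    apply DifferentiableOn.analyticOnNhd _ hU
    intro z hz
    apply DifferentiableAt.differentiableWithinAt
    have h1 : DifferentiableAt ℂ (fun z => mellin (fR hL 1) (-z)) z :=
      (fR_mellin_diff le_rfl hL_integrableOn hlo hz).comp z (differentiableAt_id.neg)
    fun_prop
  have h2 : AnalyticOnNhd ℂ (fun z => (z - 1/2) * riemannZeta₁ (2 * z + 1)) {s : ℂ | 0 < s.re} := by
    apply DifferentiableOn.analyticOnNhd _ hU
    fun_prop
  have h3 : (fun z => (z + 1/2) * mellin (fR hL 1) (-z) * riemannZeta₁ (z + 1/2) * (2 * z)) =ᶠ[𝓝 (1:ℂ)]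
      (fun z => (z - 1/2) * riemannZeta₁ (2 * z + 1)) := by
    have : {s : ℂ | 1/2 < s.re} ∈ 𝓝 (1:ℂ) := (isOpen_lt continuous_const continuous_re).mem_nhds (by simp; norm_num)
    filter_upwards [this] with z hz
    exact J_of_half_lt hz
  exact h1.eqOn_of_preconnected_of_eventuallyEq h2 hconv.isPreconnected (by simp : (1:ℂ) ∈ {s : ℂ | 0 < s.re}) h3 hz

lemma mellin_const_one {c z : ℂ} (hz : 0 < z.re) : mellin (fR (fun _ => c) 1) (-z) = c / z := by
  rw [mellin_fR_eq, integral_const_mul, integral_pow_one hz]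
  ring

/-- the shifted function to which the Tauberian theorem is applied -/
lemma mellin_sub_const (hlo : hL =o[atTop] (fun x : ℝ => Real.log x)) {c z : ℂ} (hz : 0 < z.re) :
    mellin (fR (fun t => hL t - c) 1) (-z) = mellin (fR hL 1) (-z) - c / z := by
  rw [← mellin_const_one hz, mellin_fR_eq, mellin_fR_eq, mellin_fR_eq, ← integral_sub]
  · congr 1
    ext t
    ring
  · exact (mellin_fR_conv_iff z).mp (fR_mellin_conv le_rfl hL_integrableOn hlo hz)
  · exact (integrable_pow_one hz).const_mul c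

/-- main analytic input: the mean of `t^{-1/2} L(t)` -/
theorem mean_hL (hlo : hL =o[atTop] (fun x : ℝ => Real.log x)) :
    (fun X : ℝ => ∫ t in (1:ℝ)..X, (t:ℂ)⁻¹ * (hL t - 1 / riemannZeta (1/2))) =o[atTop] (fun x : ℝ => Real.log x) := by
  set c : ℂ := 1 / riemannZeta (1/2) with hc
  -- a ball where `ζ(z+1/2) ≠ 0`
  have hcont : ContinuousAt (fun z : ℂ => riemannZeta (z + 1/2)) 0 := by
    have : DifferentiableAt ℂ riemannZeta (0 + 1/2) := by
      apply differentiableAt_riemannZeta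
      norm_num
    exact (this.comp (0:ℂ) (by fun_prop : DifferentiableAt ℂ (fun z : ℂ => z + 1/2) 0)).continuousAt
  have hne : ∀ᶠ z : ℂ in 𝓝 0, riemannZeta (z + 1/2) ≠ 0 := by
    apply hcont.eventually_ne
    simpa using zeta_half_ne_zero
  obtain ⟨ρ₀, hρ₀, hball⟩ := Metric.eventually_nhds_iff_ball.mp hne
  set ρ := min ρ₀ (1/4) with hρ
  have hρ0 : 0 < ρ := by positivity
  have hρ4 : ρ ≤ 1/4 := min_le_right _ _
  have hmem : ∀ z ∈ Metric.ball (0:ℂ) ρ, riemannZeta (z + 1/2) ≠ 0 :=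
    fun z hz => hball z (Metric.ball_subset_ball (min_le_left _ _) hz)
  have hsmall : ∀ z ∈ Metric.ball (0:ℂ) ρ, z + 1/2 ≠ 1 ∧ 2 * z + 1 ≠ 0 := by
    intro z hz
    have h1 : ‖z‖ < 1/4 := by
      have := mem_ball_zero_iff.mp hz
      linarith
    have h2 := (Complex.abs_re_le_norm z).trans_lt h1
    rw [abs_lt] at h2
    constructor
    · intro h
      have : (z + 1/2).re = 1 := by rw [h]; simp
      simp at this
      linarith
    · intro h
      have : (2 * z + 1).re = 0 := by rw [h]; simp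
      simp at this
      linarith
  set K : ℂ → ℂ := fun z => riemannZeta₁ (2 * z + 1) / ((2 * z + 1) * riemannZeta (z + 1/2)) with hK
  have hKd : DifferentiableOn ℂ K (Metric.ball 0 ρ) := by
    intro z hz
    apply DifferentiableAt.differentiableWithinAt
    have h1 := hmem z hz
    obtain ⟨h2, h3⟩ := hsmall z hz
    have hZ : Differentiable ℂ riemannZeta₁ := differentiable_riemannZeta₁
    apply DifferentiableAt.div
    · fun_prop
    · apply DifferentiableAt.mul (by fun_prop)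
      exact (differentiableAt_riemannZeta h2).comp z (by fun_prop)
    · exact mul_ne_zero h3 h1
  have hK0 : K 0 = c := by
    simp only [hK, hc]
    rw [mul_zero, zero_add, zero_add, riemannZeta₁_one, one_mul]
  have hfo : (fun t => hL t - c) =o[atTop] (fun x : ℝ => Real.log x) :=
    hlo.sub (Asymptotics.IsLittleO.trans_isBigO
      (f := fun _ : ℝ => c) (g := fun x : ℝ => Real.log x)
      (by
        have h := Real.isLittleO_const_log_atTop (c := ‖c‖)
        exact (isLittleO_norm_left.mp (by simpa using h))) (isBigO_refl _ _))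
  apply tauberian (f := fun t => hL t - c) (g := dslope K 0) (ρ := ρ) _ _ hfo hρ0
  · rw [Complex.differentiableOn_dslope (Metric.ball_mem_nhds 0 hρ0)]
    exact hKd
  · intro z hz hzre
    have hz0 : z ≠ 0 := fun h => by simp [h] at hzre
    rw [dslope_of_ne _ hz0, slope_def_field, sub_zero, mellin_sub_const hlo hzre, hK0]
    have h1 := J_of_pos hlo hzre
    obtain ⟨h2, h3⟩ := hsmall z hz
    have h4 := hmem z hz
    have e2 : riemannZeta₁ (z + 1/2) = (z - 1/2) * riemannZeta (z + 1/2) := by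
      rw [riemannZeta_eq_inv_sub_mul h2]
      have : z + 1/2 - 1 = z - 1/2 := by ring
      rw [this]
      have : z - 1/2 ≠ 0 := fun h => h2 (by linear_combination h)
      rw [← mul_assoc, mul_inv_cancel₀ this, one_mul]
    rw [e2] at h1
    have h5 : z - 1/2 ≠ 0 := fun h => h2 (by linear_combination h)
    have h6 : (2 * z + 1) * mellin (fR hL 1) (-z) * riemannZeta (z + 1/2) * z = riemannZeta₁ (2 * z + 1) := by
      apply mul_left_cancel₀ h5
      linear_combination h1
    have h7 : mellin (fR hL 1) (-z) = K z / z := by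
      simp only [hK]
      rw [← h6, eq_div_iff hz0, eq_div_iff (mul_ne_zero h3 h4)]
      ring
    rw [h7]
    ring
  · intro X
    have h1 := hL_integrableOn X
    exact h1.sub (by simp)
  · intro X
    refine ⟨max X 0 + ‖c‖, by positivity, fun x hx => ?_⟩
    calc ‖hL x - c‖ ≤ ‖hL x‖ + ‖c‖ := norm_sub_le _ _
      _ ≤ X + ‖c‖ := by linarith [norm_hL_le hx]
      _ ≤ max X 0 + ‖c‖ := by linarith [le_max_left X 0]

end Helper58.Liou
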