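import Mathlib
import Pool.Agent.Lib.Helper58.LiouvilleZeta

/-!
Abel summation between the two weighted sums of the Liouville function, and the equivalence.
-/

set_option autoImplicit false

namespace Helper58.Liou

open Complex Filter Topology MeasureTheory Set Asymptotics

/-- `L(x) = ∑_{n ≤ x} λ(n)` -/
noncomputable def L (x : ℝ) : ℝ := ∑ n ∈ Finset.Icc 1 ⌊x⌋₊, (ArithmeticFunction.liouville n : ℝ)

/-- `L_{1/2}(x) = ∑_{n ≤ x} λ(n)/√n` -/
noncomputable def Lhalf (x : ℝ) : ℝ :=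
  ∑ n ∈ Finset.Icc 1 ⌊x⌋₊, (ArithmeticFunction.liouville n : ℝ) / √(n : ℝ)

lemma SL_eq (t : ℝ) : SL t = ((L t : ℝ) : ℂ) := by
  simp [SL, L]

lemma L_meas : Measurable L := by
  have : L = (fun n : ℕ => ∑ k ∈ Finset.Icc 1 n, (ArithmeticFunction.liouville k : ℝ)) ∘ (fun t : ℝ => ⌊t⌋₊) := rfl
  rw [this]
  exact (measurable_from_nat).comp Nat.measurable_floor

lemma Lhalf_meas : Measurable Lhalf := by
  have : Lhalf = (fun n : ℕ => ∑ k ∈ Finset.Icc 1 n, (ArithmeticFunction.liouville k : ℝ) / √(k : ℝ)) ∘ (fun t : ℝ => ⌊t⌋₊) := rfl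
  rw [this]
  exact (measurable_from_nat).comp Nat.measurable_floor

lemma abs_liouville_le (n : ℕ) : |(ArithmeticFunction.liouville n : ℝ)| ≤ 1 := by
  have := norm_liouville_le n
  rw [show (ArithmeticFunction.liouville n : ℂ) = (((ArithmeticFunction.liouville n : ℝ)) : ℂ) by push_cast; rfl,
    Complex.norm_real, Real.norm_eq_abs] at this
  exact this

lemma abs_L_le {t : ℝ} (ht : 0 ≤ t) : |L t| ≤ t := by
  have := norm_SL_le t ht
  rwa [SL_eq, Complex.norm_real, Real.norm_eq_abs] at this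

lemma abs_Lhalf_le {t : ℝ} (ht : 0 ≤ t) : |Lhalf t| ≤ t := by
  rw [Lhalf]
  calc |∑ n ∈ Finset.Icc 1 ⌊t⌋₊, (ArithmeticFunction.liouville n : ℝ) / √(n : ℝ)|
      ≤ ∑ n ∈ Finset.Icc 1 ⌊t⌋₊, |(ArithmeticFunction.liouville n : ℝ) / √(n : ℝ)| := Finset.abs_sum_le_sum_abs _ _
    _ ≤ ∑ n ∈ Finset.Icc 1 ⌊t⌋₊, (1:ℝ) := by
        apply Finset.sum_le_sum
        intro n hn
        have hn1 : 1 ≤ n := (Finset.mem_Icc.mp hn).1
        have h1 : (1:ℝ) ≤ √(n : ℝ) := by
          rw [Real.one_le_sqrt]; exact_mod_cast hn1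
        rw [abs_div, abs_of_nonneg (Real.sqrt_nonneg _)]
        rw [div_le_one (by linarith)]
        exact (abs_liouville_le n).trans h1
    _ = ⌊t⌋₊ := by simp
    _ ≤ t := Nat.floor_le ht

lemma sum_Icc_zero {f : ℕ → ℝ} (hf : f 0 = 0) (n : ℕ) : ∑ k ∈ Finset.Icc 0 n, f k = ∑ k ∈ Finset.Icc 1 n, f k := by
  rw [← Finset.insert_Icc_add_one_left_eq_Icc n.zero_le, Finset.sum_insert (by simp), hf, zero_add, zero_add]

lemma rpow_deriv_integrable {a x : ℝ} : IntegrableOn (deriv fun t : ℝ => t ^ a) (Icc 1 x) := by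
  have h : ContinuousOn (fun t : ℝ => a * t ^ (a - 1)) (Icc 1 x) := by
    intro t ht
    apply ContinuousAt.continuousWithinAt
    exact continuousAt_const.mul (Real.continuousAt_rpow_const _ _ (Or.inl (by linarith [ht.1])))
  apply (h.integrableOn_Icc).congr_fun _ measurableSet_Icc
  intro t ht
  have ht0 : t ≠ 0 := by linarith [ht.1]
  simp only
  rw [(Real.hasDerivAt_rpow_const (Or.inl ht0)).deriv]

/-- Abel summation from `L` to `L_{1/2}` -/
lemma abel1 {x : ℝ} (hx : 1 ≤ x) :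
    Lhalf x = x ^ (-(1/2) : ℝ) * L x + (1/2) * ∫ t in (1:ℝ)..x, t⁻¹ * (t ^ (-(1/2) : ℝ) * L t) := by
  have h := sum_mul_eq_sub_integral_mul₀ (f := fun t : ℝ => t ^ (-(1/2) : ℝ))
    (fun n : ℕ => (ArithmeticFunction.liouville n : ℝ)) (by simp) x
    (fun t ht => (Real.hasDerivAt_rpow_const (Or.inl (by linarith [ht.1]))).differentiableAt)
    rpow_deriv_integrable
  rw [sum_Icc_zero (by simp), sum_Icc_zero (by simp)] at h
  have e1 : ∑ k ∈ Finset.Icc 1 ⌊x⌋₊, (k:ℝ) ^ (-(1/2) : ℝ) * (ArithmeticFunction.liouville k : ℝ) = Lhalf x := by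
    rw [Lhalf]
    apply Finset.sum_congr rfl
    intro k _
    rw [Real.rpow_neg (Nat.cast_nonneg k), ← Real.sqrt_eq_rpow]
    ring
  rw [e1] at h
  rw [h, intervalIntegral.integral_of_le hx]
  have e2 : ∫ t in Ioc 1 x, deriv (fun t : ℝ => t ^ (-(1/2) : ℝ)) t *
      ∑ k ∈ Finset.Icc 0 ⌊t⌋₊, (ArithmeticFunction.liouville k : ℝ)
      = ∫ t in Ioc 1 x, (-(1/2)) * (t⁻¹ * (t ^ (-(1/2) : ℝ) * L t)) := by
    apply setIntegral_congr_fun measurableSet_Ioc
    intro t ht
    have ht0 : 0 < t := by linarith [ht.1]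
    simp only
    rw [(Real.hasDerivAt_rpow_const (Or.inl ht0.ne')).deriv, sum_Icc_zero (by simp), Real.rpow_sub_one ht0.ne',
      L]
    field_simp
  rw [e2, integral_const_mul]
  simp only [L]
  ring

/-- Abel summation from `L_{1/2}` to `L` -/
lemma abel2 {x : ℝ} (hx : 1 ≤ x) :
    L x = x ^ ((1/2) : ℝ) * Lhalf x - (1/2) * ∫ t in (1:ℝ)..x, t ^ (-(1/2) : ℝ) * Lhalf t := by
  have h := sum_mul_eq_sub_integral_mul₀ (f := fun t : ℝ => t ^ ((1/2) : ℝ))
    (fun n : ℕ => (ArithmeticFunction.liouville n : ℝ) / √(n:ℝ)) (by simp) x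
    (fun t ht => (Real.hasDerivAt_rpow_const (Or.inl (by linarith [ht.1]))).differentiableAt)
    rpow_deriv_integrable
  rw [sum_Icc_zero (by simp), sum_Icc_zero (by simp)] at h
  have e1 : ∑ k ∈ Finset.Icc 1 ⌊x⌋₊, (k:ℝ) ^ ((1/2) : ℝ) * ((ArithmeticFunction.liouville k : ℝ) / √(k:ℝ)) = L x := by
    rw [L]
    apply Finset.sum_congr rfl
    intro k hk
    have hk1 : 1 ≤ k := (Finset.mem_Icc.mp hk).1
    have hk0 : (0:ℝ) < √(k:ℝ) := Real.sqrt_pos.mpr (by exact_mod_cast hk1)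
    rw [← Real.sqrt_eq_rpow]
    field_simp
  rw [e1] at h
  rw [h, intervalIntegral.integral_of_le hx]
  have e2 : ∫ t in Ioc 1 x, deriv (fun t : ℝ => t ^ ((1/2) : ℝ)) t *
      ∑ k ∈ Finset.Icc 0 ⌊t⌋₊, (ArithmeticFunction.liouville k : ℝ) / √(k:ℝ)
      = ∫ t in Ioc 1 x, (1/2) * (t ^ (-(1/2) : ℝ) * Lhalf t) := by
    apply setIntegral_congr_fun measurableSet_Ioc
    intro t ht
    have ht0 : 0 < t := by linarith [ht.1]
    simp only
    rw [(Real.hasDerivAt_rpow_const (Or.inl ht0.ne')).deriv, sum_Icc_zero (by simp), Lhalf]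
    norm_num
    ring
  rw [e2, integral_const_mul]
  simp only [Lhalf]

lemma hL_eq (t : ℝ) : hL t = (((t ^ (-(1/2) : ℝ) * L t : ℝ)) : ℂ) := by
  rw [hL, SL_eq]; push_cast; ring

lemma hL_isLittleO (h : L =o[atTop] (fun x : ℝ => √x * Real.log x)) :
    hL =o[atTop] (fun x : ℝ => Real.log x) := by
  rw [isLittleO_iff] at h ⊢
  intro c hc
  filter_upwards [h hc, eventually_gt_atTop 1] with x hx hx1
  have hx0 : 0 < x := by linarith
  have hl : 0 ≤ Real.log x := Real.log_nonneg hx1.le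
  rw [hL_eq, Complex.norm_real, norm_mul, Real.norm_of_nonneg (Real.rpow_nonneg hx0.le _)]
  rw [norm_mul, Real.norm_of_nonneg (Real.sqrt_nonneg x)] at hx
  have h1 : x ^ (-(1/2) : ℝ) * √x = 1 := by
    rw [Real.sqrt_eq_rpow, ← Real.rpow_add hx0]; norm_num
  calc x ^ (-(1/2) : ℝ) * ‖L x‖ ≤ x ^ (-(1/2) : ℝ) * (c * (√x * ‖Real.log x‖)) :=
        mul_le_mul_of_nonneg_left hx (by positivity)
    _ = (x ^ (-(1/2) : ℝ) * √x) * (c * ‖Real.log x‖) := by ring
    _ = c * ‖Real.log x‖ := by rw [h1, one_mul]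

/-- `L(x) = o(√x log x)` implies the asymptotic in Q1 -/
theorem q1_of_isLittleO (h : L =o[atTop] (fun x : ℝ => √x * Real.log x)) :
    Tendsto (fun x : ℝ => 2 * riemannZeta (1/2) * (Lhalf x : ℂ) / (Real.log x : ℂ)) atTop (𝓝 1) := by
  have hlo := hL_isLittleO h
  have hmean := mean_hL hlo
  have t1 : Tendsto (fun x : ℝ => hL x / (Real.log x : ℂ)) atTop (𝓝 0) := by
    have h2 : hL =o[atTop] (fun x : ℝ => (Real.log x : ℂ)) := by
      rw [← isLittleO_norm_right] at hlo ⊢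
      simpa [Complex.norm_real] using hlo
    exact h2.tendsto_div_nhds_zero
  have t2 : Tendsto (fun x : ℝ => (∫ t in (1:ℝ)..x, (t:ℂ)⁻¹ * (hL t - 1 / riemannZeta (1/2))) / (Real.log x : ℂ)) atTop (𝓝 0) := by
    have h2 : (fun X : ℝ => ∫ t in (1:ℝ)..X, (t:ℂ)⁻¹ * (hL t - 1 / riemannZeta (1/2))) =o[atTop] (fun x : ℝ => (Real.log x : ℂ)) := by
      rw [← isLittleO_norm_right] at hmean ⊢
      simpa [Complex.norm_real] using hmean
    exact h2.tendsto_div_nhds_zero
  have t3 : Tendsto (fun x : ℝ => 2 * riemannZeta (1/2) * (hL x / (Real.log x : ℂ)) +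
      riemannZeta (1/2) * ((∫ t in (1:ℝ)..x, (t:ℂ)⁻¹ * (hL t - 1 / riemannZeta (1/2))) / (Real.log x : ℂ)) + 1)
      atTop (𝓝 (2 * riemannZeta (1/2) * 0 + riemannZeta (1/2) * 0 + 1)) :=
    ((t1.const_mul _).add (t2.const_mul _)).add tendsto_const_nhds
  simp only [mul_zero, zero_add] at t3
  apply t3.congr'
  filter_upwards [eventually_gt_atTop 1] with x hx
  have hlog : (Real.log x : ℂ) ≠ 0 := by
    exact_mod_cast (Real.log_pos hx).ne'
  have hz := zeta_half_ne_zero
  have e1 := abel1 hx.le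
  have e2 : ∫ t in (1:ℝ)..x, (t:ℂ)⁻¹ * (hL t - 1 / riemannZeta (1/2))
      = ((∫ t in (1:ℝ)..x, t⁻¹ * (t ^ (-(1/2) : ℝ) * L t) : ℝ) : ℂ) - (Real.log x : ℂ) / riemannZeta (1/2) := by
    have i1 : IntervalIntegrable (fun t : ℝ => (t:ℂ)⁻¹ * hL t) volume 1 x := by
      rw [intervalIntegrable_iff_integrableOn_Ioc_of_le hx.le]
      refine integrableOn_of_bdd (M := x) ?_ ?_
      · exact (Complex.measurable_ofReal.inv).mul hL_meas
      · intro t ht
        rw [norm_mul, norm_inv, Complex.norm_real, Real.norm_of_nonneg (by linarith [ht.1])]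
        have h1 : t⁻¹ ≤ 1 := inv_le_one_of_one_le₀ ht.1.le
        have h2 : 0 ≤ t⁻¹ := by have := ht.1; positivity
        calc t⁻¹ * ‖hL t‖ ≤ 1 * x := mul_le_mul h1 (norm_hL_le ht) (norm_nonneg _) zero_le_one
          _ = x := one_mul x
    have i2 : IntervalIntegrable (fun t : ℝ => (t:ℂ)⁻¹ * (1 / riemannZeta (1/2))) volume 1 x := by
      apply ContinuousOn.intervalIntegrable
      intro t ht
      rw [uIcc_of_le hx.le] at ht
      apply ContinuousAt.continuousWithinAt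
      apply ContinuousAt.mul _ continuousAt_const
      apply ContinuousAt.inv₀ (by fun_prop)
      have : t ≠ 0 := by linarith [ht.1]
      exact_mod_cast this
    have e3 : ∀ t : ℝ, (t:ℂ)⁻¹ * (hL t - 1 / riemannZeta (1/2)) = (t:ℂ)⁻¹ * hL t - (t:ℂ)⁻¹ * (1 / riemannZeta (1/2)) := by
      intro t; ring
    simp only [e3]
    rw [intervalIntegral.integral_sub i1 i2, intervalIntegral.integral_mul_const]
    have e4 : ∫ t in (1:ℝ)..x, (t:ℂ)⁻¹ = (Real.log x : ℂ) := by
      have : ∫ t in (1:ℝ)..x, (t:ℂ)⁻¹ = ((∫ t in (1:ℝ)..x, t⁻¹ : ℝ) : ℂ) := by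
        rw [← intervalIntegral.integral_ofReal]
        push_cast
        rfl
      rw [this, integral_inv_of_pos one_pos (by linarith)]
      simp
    have e5 : ∫ t in (1:ℝ)..x, (t:ℂ)⁻¹ * hL t = ((∫ t in (1:ℝ)..x, t⁻¹ * (t ^ (-(1/2) : ℝ) * L t) : ℝ) : ℂ) := by
      rw [← intervalIntegral.integral_ofReal]
      congr 1
      ext t
      rw [hL_eq]
      push_cast
      ring
    rw [e4, e5]
    ring
  rw [e2, e1, hL_eq]
  set I : ℝ := ∫ t in (1:ℝ)..x, t⁻¹ * (t ^ (-(1/2) : ℝ) * L t)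
  push_cast
  field_simp
  ring

/-- a crude bound for weighted integrals of `o(log)` functions -/
lemma integral_isLittleO {e : ℝ → ℝ} (hm : Measurable e) (hb : ∀ X : ℝ, ∃ S : ℝ, ∀ t ∈ Ioc 1 X, |e t| ≤ S)
    (he : e =o[atTop] Real.log) :
    (fun x : ℝ => ∫ t in (1:ℝ)..x, t ^ (-(1/2) : ℝ) * e t) =o[atTop] (fun x : ℝ => √x * Real.log x) := by
  have hii : ∀ a b : ℝ, 1 ≤ a → a ≤ b → IntervalIntegrable (fun t : ℝ => t ^ (-(1/2) : ℝ) * e t) volume a b := by
    intro a b ha hab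
    rw [intervalIntegrable_iff_integrableOn_Ioc_of_le hab]
    obtain ⟨S, hS⟩ := hb b
    apply Measure.integrableOn_of_bounded (M := S)
    · simp
    · exact ((Measurable.pow_const measurable_id _).mul hm).aestronglyMeasurable
    · rw [ae_restrict_iff' measurableSet_Ioc]
      filter_upwards with t ht
      have ht1 : 1 < t := lt_of_le_of_lt ha ht.1
      have h1 : t ^ (-(1/2) : ℝ) ≤ 1 := Real.rpow_le_one_of_one_le_of_nonpos ht1.le (by norm_num)
      have h2 := hS t ⟨ht1, ht.2⟩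
      rw [norm_mul, Real.norm_of_nonneg (Real.rpow_nonneg (by linarith) _), Real.norm_eq_abs]
      calc t ^ (-(1/2) : ℝ) * |e t| ≤ 1 * S := mul_le_mul h1 h2 (abs_nonneg _) zero_le_one
        _ = S := one_mul S
  rw [isLittleO_iff]
  intro c hc
  have h1 := he.def (by positivity : 0 < c/4)
  rw [eventually_atTop] at h1
  obtain ⟨T0, hT0⟩ := h1
  set T := max T0 1 with hT
  have hT1 : 1 ≤ T := le_max_right _ _
  set C : ℝ := ‖∫ t in (1:ℝ)..T, t ^ (-(1/2) : ℝ) * e t‖ with hC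
  have htop : Tendsto (fun x : ℝ => √x * Real.log x) atTop atTop :=
    Real.tendsto_sqrt_atTop.atTop_mul_atTop₀ Real.tendsto_log_atTop
  filter_upwards [eventually_ge_atTop T, htop.eventually_ge_atTop (2 * C / c)] with x hx hbig
  have hx1 : 1 ≤ x := hT1.trans hx
  have hlx : 0 ≤ Real.log x := Real.log_nonneg hx1
  rw [Real.norm_of_nonneg (by positivity : 0 ≤ √x * Real.log x)]
  rw [← intervalIntegral.integral_add_adjacent_intervals (hii 1 T le_rfl hT1) (hii T x hT1 hx)]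
  have h2 : ‖∫ t in T..x, t ^ (-(1/2) : ℝ) * e t‖ ≤ ∫ t in T..x, (c/4 * Real.log x) * t ^ (-(1/2) : ℝ) := by
    apply intervalIntegral.norm_integral_le_of_norm_le hx
    · filter_upwards with t ht
      have ht1 : 1 < t := lt_of_le_of_lt hT1 ht.1
      have h3 := hT0 t (le_trans (le_max_left _ _) ht.1.le)
      rw [Real.norm_of_nonneg (Real.log_nonneg ht1.le)] at h3
      have h4 : Real.log t ≤ Real.log x := Real.log_le_log (by linarith) ht.2
      have h5 : 0 ≤ t ^ (-(1/2) : ℝ) := Real.rpow_nonneg (by linarith) _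
      rw [norm_mul, Real.norm_of_nonneg h5, mul_comm]
      apply mul_le_mul_of_nonneg_right _ h5
      exact h3.trans (mul_le_mul_of_nonneg_left h4 (by positivity))
    · apply ContinuousOn.intervalIntegrable
      intro t ht
      rw [uIcc_of_le hx] at ht
      apply ContinuousAt.continuousWithinAt
      exact continuousAt_const.mul (Real.continuousAt_rpow_const _ _ (Or.inl (by linarith [ht.1])))
  have h3 : ∫ t in T..x, (c/4 * Real.log x) * t ^ (-(1/2) : ℝ) ≤ c/2 * (√x * Real.log x) := by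
    rw [intervalIntegral.integral_const_mul, integral_rpow (Or.inl (by norm_num))]
    have : (-(1/2) + 1 : ℝ) = 1/2 := by norm_num
    rw [this, ← Real.sqrt_eq_rpow, ← Real.sqrt_eq_rpow]
    have h6 : 0 ≤ √T := Real.sqrt_nonneg _
    have h7 : (√x - √T) / (1/2) ≤ 2 * √x := by
      rw [div_le_iff₀ (by norm_num)]; linarith
    calc c/4 * Real.log x * ((√x - √T) / (1/2)) ≤ c/4 * Real.log x * (2 * √x) :=
          mul_le_mul_of_nonneg_left h7 (by positivity)
      _ = c/2 * (√x * Real.log x) := by ring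
  have h4 : C ≤ c/2 * (√x * Real.log x) := by
    rw [div_le_iff₀ hc] at hbig
    linarith
  calc ‖(∫ t in (1:ℝ)..T, t ^ (-(1/2) : ℝ) * e t) + ∫ t in T..x, t ^ (-(1/2) : ℝ) * e t‖
      ≤ C + ‖∫ t in T..x, t ^ (-(1/2) : ℝ) * e t‖ := norm_add_le _ _
    _ ≤ c/2 * (√x * Real.log x) + c/2 * (√x * Real.log x) := add_le_add h4 (h2.trans h3)
    _ = c * (√x * Real.log x) := by ring

lemma integral_rpow_log {x : ℝ} (hx : 1 ≤ x) :
    ∫ t in (1:ℝ)..x, t ^ (-(1/2) : ℝ) * Real.log t = 2 * √x * Real.log x - 4 * √x + 4 := by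
  have hd : ∀ t ∈ uIcc 1 x, HasDerivAt (fun t : ℝ => 2 * t ^ ((1/2) : ℝ) * Real.log t - 4 * t ^ ((1/2) : ℝ))
      (t ^ (-(1/2) : ℝ) * Real.log t) t := by
    intro t ht
    rw [uIcc_of_le hx] at ht
    have ht0 : t ≠ 0 := by linarith [ht.1]
    have htp : 0 < t := by linarith [ht.1]
    have h1 := Real.hasDerivAt_rpow_const (x := t) (p := (1/2:ℝ)) (Or.inl ht0)
    have h2 := Real.hasDerivAt_log ht0
    have h3 := ((h1.const_mul 2).mul h2).sub (h1.const_mul 4)
    apply h3.congr_deriv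
    have e1 : (1/2 - 1 : ℝ) = -(1/2) := by norm_num
    rw [e1]
    have e2 : t ^ ((1/2) : ℝ) = t * t ^ (-(1/2) : ℝ) := by
      nth_rewrite 2 [← Real.rpow_one t]
      rw [← Real.rpow_add htp]; norm_num
    rw [e2]
    field_simp
    ring
  rw [intervalIntegral.integral_eq_sub_of_hasDerivAt hd]
  · simp [Real.sqrt_eq_rpow]
  · apply ContinuousOn.intervalIntegrable
    intro t ht
    rw [uIcc_of_le hx] at ht
    apply ContinuousAt.continuousWithinAt
    have : t ≠ 0 := by linarith [ht.1]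
    exact (Real.continuousAt_rpow_const _ _ (Or.inl this)).mul (Real.continuousAt_log this)

/-- if `L_{1/2}(x)/log x` has a limit then `L(x) = o(√x log x)` -/
theorem isLittleO_of_tendsto {a : ℝ} (h : Tendsto (fun x : ℝ => Lhalf x / Real.log x) atTop (𝓝 a)) :
    L =o[atTop] (fun x : ℝ => √x * Real.log x) := by
  set e : ℝ → ℝ := fun t => Lhalf t - a * Real.log t with he
  have hm : Measurable e := Lhalf_meas.sub (Real.measurable_log.const_mul a)
  have hb : ∀ X : ℝ, ∃ S : ℝ, ∀ t ∈ Ioc 1 X, |e t| ≤ S := by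
    intro X
    refine ⟨X + |a| * X, fun t ht => ?_⟩
    have ht0 : 0 ≤ t := by linarith [ht.1]
    have h1 : |Real.log t| ≤ t := by
      rw [abs_of_nonneg (Real.log_nonneg ht.1.le)]
      linarith [Real.log_le_sub_one_of_pos (by linarith [ht.1] : 0 < t)]
    calc |e t| ≤ |Lhalf t| + |a * Real.log t| := abs_sub _ _
      _ ≤ t + |a| * t := by
          rw [abs_mul]
          exact add_le_add (abs_Lhalf_le ht0) (mul_le_mul_of_nonneg_left h1 (abs_nonneg _))
      _ ≤ X + |a| * X := by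
          have := ht.2
          have h2 : |a| * t ≤ |a| * X := mul_le_mul_of_nonneg_left this (abs_nonneg _)
          linarith
  have hlo : e =o[atTop] Real.log := by
    rw [isLittleO_iff_tendsto']
    · have h1 : Tendsto (fun x : ℝ => Lhalf x / Real.log x - a) atTop (𝓝 (a - a)) := h.sub tendsto_const_nhds
      rw [sub_self] at h1
      apply h1.congr'
      filter_upwards [eventually_gt_atTop 1] with x hx
      have := (Real.log_pos hx).ne'
      simp only [he]
      field_simp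
    · filter_upwards [eventually_gt_atTop 1] with x hx h0
      exact absurd h0 (Real.log_pos hx).ne'
  have h1 := integral_isLittleO hm hb hlo
  have htop : Tendsto Real.log atTop atTop := Real.tendsto_log_atTop
  have h2 : (fun x : ℝ => √x * e x) =o[atTop] (fun x : ℝ => √x * Real.log x) :=
    (isBigO_refl _ _).mul_isLittleO hlo
  have h3 : (fun x : ℝ => 2 * a * √x) =o[atTop] (fun x : ℝ => √x * Real.log x) := by
    have : (fun x : ℝ => √x * (2 * a)) =o[atTop] (fun x : ℝ => √x * Real.log x) :=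
      (isBigO_refl _ _).mul_isLittleO Real.isLittleO_const_log_atTop
    exact this.congr_left (fun x => by ring)
  have h4 : (fun _ : ℝ => 2 * a) =o[atTop] (fun x : ℝ => √x * Real.log x) := by
    rw [isLittleO_const_left]
    right
    exact tendsto_norm_atTop_atTop.comp (Real.tendsto_sqrt_atTop.atTop_mul_atTop₀ Real.tendsto_log_atTop)
  have h5 : (fun x : ℝ => √x * e x + 2 * a * √x - 2 * a - (1/2) * ∫ t in (1:ℝ)..x, t ^ (-(1/2) : ℝ) * e t)
      =o[atTop] (fun x : ℝ => √x * Real.log x) :=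
    ((h2.add h3).sub h4).sub (h1.const_mul_left (1/2))
  apply h5.congr' _ (EventuallyEq.refl _ _)
  filter_upwards [eventually_ge_atTop 1] with x hx
  rw [abel2 hx]
  have e1 : ∫ t in (1:ℝ)..x, t ^ (-(1/2) : ℝ) * Lhalf t
      = (∫ t in (1:ℝ)..x, t ^ (-(1/2) : ℝ) * e t) + a * ∫ t in (1:ℝ)..x, t ^ (-(1/2) : ℝ) * Real.log t := by
    rw [← intervalIntegral.integral_const_mul, ← intervalIntegral.integral_add]
    · congr 1
      ext t
      simp only [he]
      ring
    · rw [intervalIntegrable_iff_integrableOn_Ioc_of_le hx]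
      obtain ⟨S, hS⟩ := hb x
      apply Measure.integrableOn_of_bounded (M := S)
      · simp
      · exact ((Measurable.pow_const measurable_id _).mul hm).aestronglyMeasurable
      · rw [ae_restrict_iff' measurableSet_Ioc]
        filter_upwards with t ht
        have h1 : t ^ (-(1/2) : ℝ) ≤ 1 := Real.rpow_le_one_of_one_le_of_nonpos ht.1.le (by norm_num)
        have h2 := hS t ht
        rw [norm_mul, Real.norm_of_nonneg (Real.rpow_nonneg (by linarith [ht.1]) _), Real.norm_eq_abs]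
        calc t ^ (-(1/2) : ℝ) * |e t| ≤ 1 * S := mul_le_mul h1 h2 (abs_nonneg _) zero_le_one
          _ = S := one_mul S
    · apply ContinuousOn.intervalIntegrable
      intro t ht
      rw [uIcc_of_le hx] at ht
      apply ContinuousAt.continuousWithinAt
      have : t ≠ 0 := by linarith [ht.1]
      exact continuousAt_const.mul ((Real.continuousAt_rpow_const _ _ (Or.inl this)).mul (Real.continuousAt_log this))
  rw [e1, integral_rpow_log hx, ← Real.sqrt_eq_rpow]
  simp only [he]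
  ring

theorem main : List.TFAE [
    Tendsto (fun x : ℝ => 2 * riemannZeta (1/2) * (Lhalf x : ℂ) / (Real.log x : ℂ)) atTop (𝓝 1),
    ∃ a : ℝ, Tendsto (fun x : ℝ => Lhalf x / Real.log x) atTop (𝓝 a),
    L =o[atTop] (fun x : ℝ => √x * Real.log x)] := by
  tfae_have 1 → 2 := by
    intro h
    have hz := zeta_half_ne_zero
    have h1 : Tendsto (fun x : ℝ => (1 / (2 * riemannZeta (1/2))) *
      (2 * riemannZeta (1/2) * (Lhalf x : ℂ) / (Real.log x : ℂ))) atTop (𝓝 ((1 / (2 * riemannZeta (1/2))) * 1)) :=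
      h.const_mul _
    have h2 := (Complex.continuous_re.tendsto _).comp h1
    refine ⟨_, h2.congr ?_⟩
    intro x
    simp only [Function.comp]
    have : (1 / (2 * riemannZeta (1/2))) * (2 * riemannZeta (1/2) * (Lhalf x : ℂ) / (Real.log x : ℂ))
        = ((Lhalf x / Real.log x : ℝ) : ℂ) := by
      push_cast
      field_simp
    rw [this, Complex.ofReal_re]
  tfae_have 2 → 3 := by
    rintro ⟨a, ha⟩
    exact isLittleO_of_tendsto ha
  tfae_have 3 → 1 := q1_of_isLittleO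
  tfae_finish

end Helper58.Liou
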